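import Mathlib

/-! A domain that is smooth over a field is integrally closed. -/

set_option autoImplicit false

namespace Pool.Agent.Lib.MP_5c318e_ag

open Algebra TensorProduct
open scoped nonZeroDivisors

theorem norm_etale (R S : Type) [CommRing R] [IsDomain R] [IsIntegrallyClosed R] [CommRing S]
    [IsDomain S] [Algebra R S] [Etale R S] : IsIntegrallyClosed S := by
  let K := FractionRing R
  let L := FractionRing S
  have hRS : Function.Injective (algebraMap R S) := by
    refine (injective_iff_map_eq_zero _).2 fun r hr => by_contra fun h0 => ?_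
    have h1 : IsSMulRegular S r :=
      Module.Flat.isSMulRegular_of_nonZeroDivisors (mem_nonZeroDivisors_of_ne_zero h0)
    exact one_ne_zero (h1.right_eq_zero_of_smul (x := (1 : S)) (by rw [Algebra.smul_def, hr, zero_mul]))
  have : FaithfulSMul R S := (faithfulSMul_iff_algebraMap_injective R S).2 hRS
  have : FaithfulSMul R L := .trans R S L
  let _ : Algebra K L := FractionRing.liftAlgebra R L
  have : IsScalarTower R K L := FractionRing.isScalarTower_liftAlgebra R L
  let φ : S ⊗[R] K →ₐ[S] L := Algebra.TensorProduct.lift (Algebra.ofId S L)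
    (IsScalarTower.toAlgHom R K L) fun _ _ => .all _ _
  have hi : Function.Injective φ := by
    refine (injective_iff_map_eq_zero _).2 fun t ht => ?_
    obtain ⟨⟨s, m⟩, e⟩ := IsLocalization.surj (algebraMapSubmonoid S R⁰) t
    have h1 := congrArg φ e
    rw [map_mul, ht, zero_mul, AlgHom.commutes, eq_comm,
      map_eq_zero_iff _ (IsFractionRing.injective S L)] at h1
    simp only at h1 e
    rw [h1, map_zero] at e
    exact (IsLocalization.map_units (S ⊗[R] K) m).mul_left_eq_zero.1 e
  have hf : Module.Finite K (K ⊗[R] S) := FormallyUnramified.finite_of_free K _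
  let ψ : K ⊗[R] S →ₐ[K] L := Algebra.TensorProduct.lift (Algebra.ofId K L)
    (IsScalarTower.toAlgHom R S L) fun _ _ => .all _ _
  have hs : Function.Surjective φ := fun x => by
    obtain ⟨a, b, -, rfl⟩ := IsFractionRing.div_surjective (A := S) x
    have hb : IsIntegral K (algebraMap S L b) := by
      have := (IsIntegral.of_finite K ((1 : K) ⊗ₜ[R] b)).map ψ
      simpa [ψ] using this
    have h2 : ∀ y ∈ adjoin K {algebraMap S L b}, y ∈ φ.range := fun y hy => by
      refine adjoin_induction ?_ (fun c => ⟨1 ⊗ₜ c, by simp [φ]⟩) (fun _ _ _ _ => add_mem)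
        (fun _ _ _ _ => mul_mem) hy
      rintro _ rfl
      exact Subalgebra.algebraMap_mem _ _
    rw [div_eq_mul_inv]
    exact mul_mem (Subalgebra.algebraMap_mem φ.range a) (h2 _ (hb.inv_mem_adjoin))
  refine (isIntegrallyClosed_iff L).2 fun {x} hx => ?_
  obtain ⟨t, rfl⟩ := hs x
  obtain ⟨u, hu⟩ := (TensorProduct.toIntegralClosure_bijective_of_smooth (R := R) (S := S)
    (B := K)).2 ⟨t, (isIntegral_algHom_iff φ hi).1 hx⟩
  have e : t = Algebra.TensorProduct.map (.id S S) (integralClosure R K).val u :=
    (congrArg Subtype.val hu).symm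
  rw [e]
  clear hu e
  induction u using TensorProduct.induction_on with
  | zero => exact ⟨0, by simp⟩
  | add x y hx hy =>
    obtain ⟨a, ha⟩ := hx
    obtain ⟨b, hb⟩ := hy
    exact ⟨a + b, by simp only [map_add, ha, hb]⟩
  | tmul s y =>
    obtain ⟨r, hr⟩ := IsIntegrallyClosed.isIntegral_iff.1 y.2
    refine ⟨s * algebraMap R S r, ?_⟩
    simp [φ, ← hr, ← IsScalarTower.algebraMap_apply]

theorem norm_smooth (k A : Type) [Field k] [CommRing A] [IsDomain A] [Algebra k A] [Smooth k A] :
    IsIntegrallyClosed A := by
  refine .of_localization_maximal fun m _ hm => ?_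
  obtain ⟨f, hf, n, _, _, _⟩ := IsSmoothAt.exists_isStandardEtale_mvPolynomial (R := k) (p := m)
  have h0 : Submonoid.powers f ≤ A⁰ :=
    powers_le_nonZeroDivisors_of_noZeroDivisors fun h => hf (h ▸ m.zero_mem)
  have : IsDomain (Localization.Away f) := IsLocalization.isDomain_localization h0
  have := norm_etale (MvPolynomial (Fin n) k) (Localization.Away f)
  have hle : Submonoid.powers f ≤ m.primeCompl := Submonoid.powers_le.2 hf
  let _ := IsLocalization.localizationAlgebraOfSubmonoidLe (Localization.Away f)
    (Localization.AtPrime m) _ _ hle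
  have := IsLocalization.localization_isScalarTower_of_submonoid_le (Localization.Away f)
    (Localization.AtPrime m) _ _ hle
  have := IsLocalization.isLocalization_of_submonoid_le (Localization.Away f)
    (Localization.AtPrime m) _ _ hle
  refine isIntegrallyClosed_of_isLocalization (R := Localization.Away f) _
    (m.primeCompl.map (algebraMap A (Localization.Away f))) ?_
  rintro _ ⟨a, ha, rfl⟩
  exact mem_nonZeroDivisors_of_ne_zero fun h => ha
    ((map_eq_zero_iff _ (IsLocalization.injective _ h0)).1 h ▸ m.zero_mem)

end Pool.Agent.Lib.MP_5c318e_ag
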