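import Pool.Agent.Lib.MP_5c318e_ag.Va.BC
import Pool.Agent.Lib.MP_5c318e_ag.Z.Fin
import Pool.Agent.Lib.MP_5c318e_ag.Fo.Chain

/-! The final inequality for abstract fields. -/

set_option autoImplicit false

namespace Pool.Agent.Lib.MP_5c318e_ag.Sch

open IntermediateField Set

section iso

variable {k F k' F' : Type} [Field k] [CharZero k] [Field F] [Field k'] [Field F'] [Algebra k F]
  [Algebra k' F'] (ek : k →+* k') (eF : F →+* F') (hk : Function.Surjective ek)
  (hF : Function.Surjective eF) (h : ∀ a, eF (algebraMap k F a) = algebraMap k' F' (ek a))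
include hk hF h

theorem iso_kod (hfg : (⊤ : IntermediateField k F).FG) : kod k F = kod k' F' := by
  let _ := ek.toAlgebra
  let _ := eF.toAlgebra
  let _ := (eF.comp (algebraMap k F)).toAlgebra
  have : IsScalarTower k F F' := .of_algebraMap_eq fun _ => rfl
  have : IsScalarTower k k' F' := .of_algebraMap_eq h
  have : Normal k k' := Normal.of_algEquiv (AlgEquiv.ofBijective (Algebra.ofId k k')
    ⟨ek.injective, hk⟩)
  have : Algebra.IsAlgebraic F F' := ⟨fun y => by
    obtain ⟨x, rfl⟩ := hF y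
    exact isAlgebraic_algebraMap x⟩
  obtain ⟨n, x, hx⟩ := exists_basis_of_fg hfg
  refine (kod_le_const hx).antisymm (kod_const_le (eq_top_iff.2 fun y _ => ?_) hx)
  obtain ⟨x, rfl⟩ := hF y
  exact IntermediateField.algebraMap_mem _ x

theorem iso_smooth (hc : ∀ x : F, IsAlgebraic k x → x ∈ range (algebraMap k F))
    (hS : SmoothModel k F) : SmoothModel k' F' := by
  let _ := ek.toAlgebra
  let _ := eF.toAlgebra
  let _ := (eF.comp (algebraMap k F)).toAlgebra
  have : IsScalarTower k F F' := .of_algebraMap_eq fun _ => rfl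
  have : IsScalarTower k k' F' := .of_algebraMap_eq h
  have : Algebra.IsAlgebraic k k' := ⟨fun y => by
    obtain ⟨x, rfl⟩ := hk y
    exact isAlgebraic_algebraMap x⟩
  refine bc_smooth hc (eq_top_iff.2 fun y _ => ?_) hS
  obtain ⟨x, rfl⟩ := hF y
  exact IntermediateField.algebraMap_mem _ x

end iso

theorem ac_complex {F : Type} [Field F] [Algebra ℂ F] (x : F) (hx : IsAlgebraic ℂ x) :
    x ∈ range (algebraMap ℂ F) :=
  minpoly.mem_range_of_degree_eq_one ℂ x
    (IsAlgClosed.degree_eq_one_of_irreducible _ (minpoly.irreducible hx.isIntegral))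

/-- the final form for abstract fields: `E` is an algebraic closure of `K`, `N` the compositum -/
theorem abs_of_final
    (H : ∀ (Om : Type) [Field Om] [Algebra ℂ Om] [IsAlgClosed Om] (K M : IntermediateField ℂ Om)
      (hKM : K ≤ M), SmoothModel ℂ K → SmoothModel ℂ M → SmoothModel K (extendScalars hKM) →
      M ⊓ aclC K ≤ K → kod ℂ K ≠ ⊥ →
      kod (aclC K) (adjoin (aclC K) (M : Set Om)) +
        max (kod ℂ K) ((Var (aclC K) (M ⊔ aclC K) : Cardinal) : WithBot Cardinal) ≤ kod ℂ M)
    {K M E N : Type} [Field K] [Field M] [Field E] [Field N] [Algebra ℂ K] [Algebra ℂ M]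
    [Algebra ℂ E] [Algebra K M] [Algebra K E] [Algebra K N] [Algebra M N] [Algebra E N]
    [IsScalarTower ℂ K M] [IsScalarTower ℂ K E] [IsScalarTower K M N] [IsScalarTower K E N]
    [IsAlgClosure K E] (hgen : adjoin M (Set.range (algebraMap E N)) = ⊤)
    (hY : SmoothModel ℂ K) (hX : SmoothModel ℂ M) (hF : SmoothModel K M)
    (hc : ∀ a : M, IsAlgebraic K a → a ∈ Set.range (algebraMap K M)) (h0 : kod ℂ K ≠ ⊥) :
    ∃ (L : IntermediateField ℂ E) (S : Finset N), IsAlgClosed L ∧ adjoin E (S : Set N) = ⊤ ∧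
      (∀ (n : ℕ) (b : Fin n → E), LinearIndependent L b →
        LinearIndependent (adjoin L (S : Set N)) fun i => algebraMap E N (b i)) ∧
      kod E N + max (kod ℂ K) ((Algebra.trdeg ℂ L : Cardinal) : WithBot Cardinal) ≤ kod ℂ M := by
  classical
  have : CharZero K := charZero_of_injective_algebraMap (algebraMap ℂ K).injective
  have : CharZero E := charZero_of_injective_algebraMap (algebraMap ℂ E).injective
  have : IsAlgClosed E := IsAlgClosure.isAlgClosed K
  let _ : Algebra ℂ N := ((algebraMap M N).comp (algebraMap ℂ M)).toAlgebra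
  have : IsScalarTower ℂ M N := .of_algebraMap_eq fun _ => rfl
  have : IsScalarTower ℂ K N := .of_algebraMap_eq fun a => by
    rw [IsScalarTower.algebraMap_apply K M N, ← IsScalarTower.algebraMap_apply ℂ K M,
      IsScalarTower.algebraMap_apply ℂ M N]
  have : IsScalarTower ℂ E N := .of_algebraMap_eq fun a => by
    rw [IsScalarTower.algebraMap_apply ℂ K E, ← IsScalarTower.algebraMap_apply K E N,
      IsScalarTower.algebraMap_apply ℂ K N]
  let Om := AlgebraicClosure N
  let ψ : N →ₐ[ℂ] Om := IsScalarTower.toAlgHom ℂ N Om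
  let fK : K →ₐ[ℂ] Om := ψ.comp (IsScalarTower.toAlgHom ℂ K N)
  let fM : M →ₐ[ℂ] Om := ψ.comp (IsScalarTower.toAlgHom ℂ M N)
  let fE : E →ₐ[ℂ] Om := ψ.comp (IsScalarTower.toAlgHom ℂ E N)
  have eM : ∀ a : K, fM (algebraMap K M a) = fK a := fun a =>
    congrArg ψ (IsScalarTower.algebraMap_apply K M N a).symm
  have eE : ∀ a : K, fE (algebraMap K E a) = fK a := fun a =>
    congrArg ψ (IsScalarTower.algebraMap_apply K E N a).symm
  have hKM : fK.fieldRange ≤ fM.fieldRange := by
    rintro _ ⟨a, rfl⟩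
    exact ⟨_, eM a⟩
  have kM : fK.fieldRange.toSubfield = (algebraMap K M).fieldRange.map (fM : M →+* Om) := by
    rw [RingHom.map_fieldRange, show (fM : M →+* Om).comp (algebraMap K M) = fK from
      RingHom.ext eM]
    rfl
  have kE : fK.fieldRange.toSubfield = (algebraMap K E).fieldRange.map (fE : E →+* Om) := by
    rw [RingHom.map_fieldRange, show (fE : E →+* Om).comp (algebraMap K E) = fK from
      RingHom.ext eE]
    rfl
  have alg : ∀ {F : Type} [Field F] [Algebra K F] (x : F),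
      x ∈ acl (algebraMap K F).fieldRange ↔ IsAlgebraic K x := fun {F} _ _ x => by
    have := Trd_map_iff (k := (algebraMap K F).fieldRange) (k0 := K) (RingHom.id F)
      (fun _ => Iff.rfl) (u := fun _ : Unit => x)
    rw [algebraicIndependent_unique_type_iff, algebraicIndependent_unique_type_iff] at this
    rw [mem_acl]
    exact not_iff_not.1 this
  have hE : (aclC fK.fieldRange).toSubfield = (fE : E →+* Om).fieldRange := by
    have : acl (algebraMap K E).fieldRange = ⊤ :=
      eq_top_iff.2 fun x _ => (alg x).2 (Algebra.IsAlgebraic.isAlgebraic x)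
    rw [Fo.aclC_eq, kE, ← Fo.acl_map, this, ← RingHom.fieldRange_eq_map]
  have mE : ∀ a, fE a ∈ aclC fK.fieldRange := fun a => hE.ge ⟨a, rfl⟩
  have hN : (fM.fieldRange ⊔ aclC fK.fieldRange).toSubfield = (ψ : N →+* Om).fieldRange := by
    rw [sup_toSubfield, hE]
    refine le_antisymm (sup_le ?_ ?_) ?_
    · rintro _ ⟨a, rfl⟩
      exact ⟨_, rfl⟩
    · rintro _ ⟨a, rfl⟩
      exact ⟨_, rfl⟩
    · rintro _ ⟨y, rfl⟩
      have hy : y ∈ (adjoin M (range (algebraMap E N))).toSubfield := by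
        rw [hgen]
        trivial
      rw [adjoin_toSubfield] at hy
      refine (Subfield.mem_comap (f := (ψ : N →+* Om))).1 (Subfield.closure_le.2 ?_ hy)
      rintro _ (⟨a, rfl⟩ | ⟨a, rfl⟩)
      · exact (le_sup_left : fM.fieldRange.toSubfield ≤ _) ⟨a, rfl⟩
      · exact (le_sup_right : (fE : E →+* Om).fieldRange ≤ _) ⟨a, rfl⟩
  have hN' : ∀ y, y ∈ adjoin (aclC fK.fieldRange) (fM.fieldRange : Set Om) ↔
      y ∈ (ψ : N →+* Om).fieldRange := fun y => by
    rw [← hN, sup_toSubfield, sup_comm, sup_eq_adj, adj, closure_eq_adjoin]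
    rfl
  let cK : K →+* fK.fieldRange := (fK : K →+* Om).rangeRestrictField
  let cM : M →+* fM.fieldRange := (fM : M →+* Om).rangeRestrictField
  let cM' : M →+* extendScalars hKM := cM
  let cE : E →+* aclC fK.fieldRange := (fE : E →+* Om).codRestrict _ mE
  let cN : N →+* adjoin (aclC fK.fieldRange) (fM.fieldRange : Set Om) :=
    (ψ : N →+* Om).codRestrict _ fun y => (hN' _).2 ⟨y, rfl⟩
  have sK : Function.Surjective cK := (fK : K →+* Om).rangeRestrictField_bijective.2
  have sM : Function.Surjective cM := (fM : M →+* Om).rangeRestrictField_bijective.2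
  have sE : Function.Surjective cE := fun y => by
    obtain ⟨a, ha⟩ := hE.le y.2
    exact ⟨a, Subtype.ext ha⟩
  have sN : Function.Surjective cN := fun y => by
    obtain ⟨a, ha⟩ := (hN' _).1 y.2
    exact ⟨a, Subtype.ext ha⟩
  have k1 : kod ℂ K = kod ℂ fK.fieldRange := iso_kod (RingHom.id ℂ) cK Function.surjective_id sK
    (fun a => Subtype.ext (fK.commutes a)) hY.fg
  have k2 : kod ℂ M = kod ℂ fM.fieldRange := iso_kod (RingHom.id ℂ) cM Function.surjective_id sM
    (fun a => Subtype.ext (fM.commutes a)) hX.fg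
  have hEN : SmoothModel E N := bc_smooth hc hgen hF
  have k3 := iso_kod cE cN sE sN (fun a => rfl) hEN.fg
  have h1 := H Om fK.fieldRange fM.fieldRange hKM
    (iso_smooth (RingHom.id ℂ) cK Function.surjective_id sK
      (fun a => Subtype.ext (fK.commutes a)) ac_complex hY)
    (iso_smooth (RingHom.id ℂ) cM Function.surjective_id sM
      (fun a => Subtype.ext (fM.commutes a)) ac_complex hX)
    (iso_smooth cK cM' sK sM (fun a => Subtype.ext (eM a)) hc hF) (by
      rintro _ ⟨⟨a, rfl⟩, ha⟩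
      have h2 : fM a ∈ (aclC fK.fieldRange).toSubfield := ha
      rw [Fo.aclC_eq, kM] at h2
      obtain ⟨c, rfl⟩ := hc a ((alg a).1 ((Fo.mem_acl_map (fM : M →+* Om)).1 h2))
      exact ⟨c, (eM c).symm⟩) (k1 ▸ h0)
  rw [← k1, ← k2, ← k3] at h1
  obtain ⟨T, hT⟩ := hEN.fg
  have eE' : (fE : E →+* Om).fieldRange = (algebraMap E N).fieldRange.map (ψ : N →+* Om) :=
    (RingHom.map_fieldRange (ψ : N →+* Om) (algebraMap E N)).symm
  have hne : {c | ∃ K0 : IntermediateField ℂ Om, K0 ≤ aclC fK.fieldRange ∧ IsAlgClosed K0 ∧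
      DefinedOver K0 (aclC fK.fieldRange) (fM.fieldRange ⊔ aclC fK.fieldRange) ∧
      c = Algebra.trdeg ℂ K0}.Nonempty := by
    refine ⟨_, _, le_rfl, IsAlgClosed.of_ringEquiv E _
      (RingEquiv.ofBijective cE ⟨cE.injective, sE⟩), Fo.definedOver_iff.2 ?_, rfl⟩
    have h2 := (Fo.DO.self (algebraMap E N).fieldRange T).map (ψ : N →+* Om)
    have h3 : adj (algebraMap E N).fieldRange T = ⊤ := congrArg toSubfield hT
    rwa [h3, ← RingHom.fieldRange_eq_map, ← eE', ← hE, ← hN] at h2
  obtain ⟨K0, g1, g2, g3, g4⟩ := csInf_mem hne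
  let L : IntermediateField ℂ E := K0.comap fE
  let cL : L →ₐ[ℂ] K0 := (fE.comp L.val).codRestrict K0.toSubalgebra fun y => y.2
  have bL : Function.Bijective cL := ⟨cL.toRingHom.injective, fun y => by
    obtain ⟨a, ha⟩ := hE.le (g1 y.2)
    exact ⟨⟨a, show fE a ∈ K0 from ha ▸ y.2⟩, Subtype.ext ha⟩⟩
  have eL : K0.toSubfield = (algebraMap L N).fieldRange.map (ψ : N →+* Om) := by
    ext y
    constructor
    · intro hy
      obtain ⟨a, ha⟩ := bL.2 ⟨y, hy⟩
      exact ⟨_, ⟨a, rfl⟩, congrArg Subtype.val ha⟩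
    · rintro ⟨_, ⟨a, rfl⟩, rfl⟩
      exact a.2
  have h2 := Fo.definedOver_iff.1 g3
  rw [eL, hE, eE', hN, RingHom.fieldRange_eq_map (ψ : N →+* Om)] at h2
  obtain ⟨S, e1, e2⟩ := h2.of_map _
  refine ⟨L, S, IsAlgClosed.of_ringEquiv K0 L (AlgEquiv.ofBijective cL bL).symm.toRingEquiv,
    toSubfield_injective e1.symm, fun n b hb => ?_, ?_⟩
  · exact e2.linearIndependent (b := fun i => algebraMap E N (b i)) (fun i => ⟨b i, rfl⟩)
      ((li_subfield_iff (k := L) (fun _ => RingHom.mem_fieldRange) _).2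
        (hb.map' (IsScalarTower.toAlgHom L E N).toLinearMap
          (LinearMap.ker_eq_bot.2 (algebraMap E N).injective)))
  · rw [(AlgEquiv.ofBijective cL bL).trdeg_eq, ← g4]
    exact h1

end Pool.Agent.Lib.MP_5c318e_ag.Sch
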