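import Mathlib

/-! An integral extension of a normal affine domain with connected closed fibres is trivial. -/

set_option autoImplicit false

namespace Pool.Agent.Lib.MP_5c318e_ag

open Algebra Polynomial Set

theorem ac_point (k B : Type) [Field k] [IsAlgClosed k] [CommRing B] [IsDomain B] [Algebra k B]
    [FiniteType k B] {δ : B} (h : δ ≠ 0) : ∃ φ : B →ₐ[k] k, φ δ ≠ 0 := by
  have : IsJacobsonRing B := isJacobsonRing_of_finiteType (A := k)
  have h1 : δ ∉ (⊥ : Ideal B).jacobson := by
    rw [IsJacobsonRing.out inferInstance (Ideal.IsPrime.isRadical inferInstance)]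
    exact h
  obtain ⟨m, ⟨-, hm⟩, hδ⟩ : ∃ m : Ideal B, (⊥ ≤ m ∧ m.IsMaximal) ∧ δ ∉ m := by
    by_contra hc
    exact h1 (Ideal.mem_sInf.2 fun {m} hm => by_contra fun h => hc ⟨m, hm, h⟩)
  let _ := Ideal.Quotient.field m
  have : Module.Finite k (B ⧸ m) := finite_of_finite_type_of_isJacobsonRing k (B ⧸ m)
  let e := AlgEquiv.ofBijective (Algebra.ofId k (B ⧸ m))
    (IsAlgClosed.algebraMap_bijective_of_isIntegral (k := k) (K := B ⧸ m))
  refine ⟨e.symm.toAlgHom.comp (Ideal.Quotient.mkₐ k m), fun h0 => hδ ?_⟩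
  exact Ideal.Quotient.eq_zero_iff_mem.1 ((map_eq_zero_iff _ e.symm.injective).1 h0)

theorem ac_ring (k B C : Type) [Field k] [IsAlgClosed k] [CharZero k] [CommRing B] [IsDomain B]
    [IsIntegrallyClosed B] [Algebra k B] [FiniteType k B] [CommRing C] [IsDomain C] [Algebra B C]
    [FaithfulSMul B C] [Algebra.IsIntegral B C]
    (h : ∀ m : Ideal B, m.IsMaximal →
      IsPreconnected {p : PrimeSpectrum C | p.asIdeal.comap (algebraMap B C) = m}) :
    Function.Surjective (algebraMap B C) := fun α => by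
  let _ : Algebra k C := ((algebraMap B C).comp (algebraMap k B)).toAlgebra
  have : IsScalarTower k B C := .of_algebraMap_eq fun _ => rfl
  have : CharZero B := charZero_of_injective_algebraMap (algebraMap k B).injective
  have hα : IsIntegral B α := Algebra.IsIntegral.isIntegral α
  have hP := minpoly.monic hα
  have hd := minpoly.natDegree_pos hα
  by_contra hc
  have h2 : 2 ≤ (minpoly B α).natDegree := (minpoly.two_le_natDegree_iff hα).2 hc
  have h3 : aeval α (derivative (minpoly B α)) ≠ 0 := fun h0 => by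
    have := eq_zero_of_dvd_of_natDegree_lt (minpoly.isIntegrallyClosed_dvd hα h0)
      (natDegree_derivative_lt hd.ne')
    exact hd.ne' (derivative_eq_zero.1 this)
  obtain ⟨δ, hδ, h0⟩ := Submodule.exists_mem_ne_zero_of_ne_bot (Ideal.comap_ne_bot_of_integral_mem
    (R := B) h3 (Ideal.mem_span_singleton_self _) (Algebra.IsIntegral.isIntegral _))
  obtain ⟨φ, hφ⟩ := ac_point k B h0
  have hm : (RingHom.ker φ).IsMaximal :=
    RingHom.ker_isMaximal_of_surjective φ fun c => ⟨algebraMap k B c, φ.commutes c⟩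
  set F := {p : PrimeSpectrum C | p.asIdeal.comap (algebraMap B C) = RingHom.ker φ} with hF
  have key : ∀ p ∈ F, ∀ g : B[X], aeval α g - aeval α (g.map (φ : B →+* k)) ∈ p.asIdeal :=
    fun p hp g => by
    induction g using Polynomial.induction_on' with
    | add a b ha hb =>
      rw [Polynomial.map_add, map_add, map_add, add_sub_add_comm]
      exact add_mem ha hb
    | monomial n b =>
      rw [map_monomial, aeval_monomial, aeval_monomial, ← sub_mul,
        IsScalarTower.algebraMap_apply k B C, ← map_sub]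
      refine Ideal.mul_mem_right _ _ (Ideal.mem_comap.1 ?_)
      rw [hp, RingHom.mem_ker, map_sub, AlgHom.commutes]
      exact sub_self _
  have ex : ∀ r : k, ((minpoly B α).map (φ : B →+* k)).IsRoot r →
      ∃ p ∈ F, α - algebraMap k C r ∈ p.asIdeal := fun r hr => by
    let _ : Algebra B[X] C := (aeval α : B[X] →ₐ[B] C).toRingHom.toAlgebra
    have : IsScalarTower B B[X] C := .of_algebraMap_eq fun b => (aeval_C α b).symm
    have : Algebra.IsIntegral B[X] C := .tower_top B
    let ψ : B[X] →+* k := eval₂RingHom (φ : B →+* k) r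
    have : (RingHom.ker ψ).IsPrime := RingHom.ker_isPrime ψ
    obtain ⟨q, hq, e⟩ := Ideal.exists_ideal_over_prime_of_isIntegral_of_isDomain (S := C)
      (RingHom.ker ψ) fun g hg => by
        obtain ⟨u, rfl⟩ := minpoly.isIntegrallyClosed_dvd hα hg
        rw [RingHom.mem_ker, map_mul, show ψ (minpoly B α) = 0 from (eval_map _ _).symm.trans hr,
          zero_mul]
    refine ⟨⟨q, hq⟩, Ideal.ext fun b => ?_, ?_⟩
    · rw [Ideal.mem_comap, IsScalarTower.algebraMap_apply B B[X] C, ← Ideal.mem_comap, e,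
        RingHom.mem_ker, RingHom.mem_ker]
      simp [ψ]
    · have : (X - Polynomial.C (algebraMap k B r) : B[X]) ∈ q.comap (algebraMap B[X] C) := by
        rw [e, RingHom.mem_ker]
        simp [ψ]
      have h5 : aeval α (X - Polynomial.C (algebraMap k B r) : B[X]) ∈ q := this
      rwa [map_sub, aeval_X, aeval_C] at h5
  have ev : ∀ (p : PrimeSpectrum C) (r : k), α - algebraMap k C r ∈ p.asIdeal → ∀ g : k[X],
      aeval α g - algebraMap k C (g.eval r) ∈ p.asIdeal := fun p r hr g => by
    rw [← aeval_algebraMap_apply_eq_algebraMap_eval, ← eval_map_algebraMap, ← eval_map_algebraMap]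
    exact Ideal.mem_of_dvd _ (sub_dvd_eval_sub _ _ _) hr
  have hd' : ((minpoly B α).map (φ : B →+* k)).natDegree = (minpoly B α).natDegree :=
    hP.natDegree_map _
  obtain ⟨r, hr⟩ := IsAlgClosed.exists_root ((minpoly B α).map (φ : B →+* k))
    (natDegree_pos_iff_degree_pos.1 (hd' ▸ hd)).ne'
  obtain ⟨Q, hQ⟩ := dvd_iff_isRoot.2 hr
  have hQ0 : Q ≠ 0 := fun h => (hP.map (φ : B →+* k)).ne_zero (by rw [hQ, h, mul_zero])
  have hQd : 0 < Q.natDegree := by
    rw [hQ, natDegree_mul (X_sub_C_ne_zero r) hQ0, natDegree_X_sub_C] at hd'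
    omega
  obtain ⟨s, hs⟩ := IsAlgClosed.exists_root Q (natDegree_pos_iff_degree_pos.1 hQd).ne'
  obtain ⟨p, hp, hpr⟩ := ex r hr
  obtain ⟨q, hq, hqs⟩ := ex s (by rw [hQ, IsRoot, eval_mul, hs, mul_zero])
  have hQr : Q.eval r ≠ 0 := fun h4 => by
    have h5 := ev p r hpr (derivative ((minpoly B α).map (φ : B →+* k)))
    have h6 : eval r (derivative ((minpoly B α).map (φ : B →+* k))) = 0 := by
      rw [hQ]
      simp [h4]
    rw [h6, map_zero, sub_zero, derivative_map] at h5
    have h7 := add_mem (key p hp (derivative (minpoly B α))) h5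
    rw [sub_add_cancel] at h7
    have h8 : δ ∈ p.asIdeal.comap (algebraMap B C) :=
      (Ideal.span_singleton_le_iff_mem _).2 h7 hδ
    rw [hp] at h8
    exact hφ h8
  have cov : ∀ p : PrimeSpectrum C, α - algebraMap k C r ∈ p.asIdeal → aeval α Q ∉ p.asIdeal :=
    fun p h4 h5 => by
    have h6 := sub_mem h5 (ev p r h4 Q)
    rw [sub_sub_cancel] at h6
    exact p.2.ne_top (Ideal.eq_top_of_isUnit_mem _ h6 ((IsUnit.mk0 _ hQr).map _))
  have hqQ : aeval α Q ∈ q.asIdeal := by
    have := ev q s hqs Q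
    rwa [hs, map_zero, sub_zero] at this
  obtain ⟨z, hz, h4, h5⟩ := h _ hm _ _
    (PrimeSpectrum.basicOpen (α - algebraMap k C r)).isOpen
    (PrimeSpectrum.basicOpen (aeval α Q)).isOpen
    (fun z _ => (em (α - algebraMap k C r ∈ z.asIdeal)).elim (fun h => .inr (cov z h)) .inl)
    ⟨q, hq, fun h => cov q h hqQ⟩ ⟨p, hp, cov p hpr⟩
  have h6 := key z hz (minpoly B α)
  rw [minpoly.aeval, zero_sub, neg_mem_iff, hQ, map_mul, map_sub, aeval_X, aeval_C] at h6
  exact (z.2.mem_or_mem h6).elim h4 h5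

end Pool.Agent.Lib.MP_5c318e_ag
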