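import Pool.Agent.Lib.MP_5c318e_ag.Sch.Norm
import Pool.Agent.Lib.MP_5c318e_ag.Sch.AlgR

/-! The function field of the base of a fibration is algebraically closed in that of the total
space. -/

set_option autoImplicit false

namespace Pool.Agent.Lib.MP_5c318e_ag

open AlgebraicGeometry CategoryTheory TopologicalSpace Set

theorem ac_chart (k : Type) [Field k] {X : Scheme.{0}} (g : X ⟶ Spec (.of k)) [Smooth g]
    {U : X.Opens} (hU : IsAffineOpen U) :
    ((Scheme.ΓSpecIso (.of k)).inv ≫ g.appLE ⊤ U le_top).hom.Smooth :=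
  RingHom.Smooth.respectsIso.2 _ (Scheme.ΓSpecIso (.of k)).symm.commRingCatIsoToRingEquiv
    (g.smooth_appLE (isAffineOpen_top _) hU le_top)

theorem ac_norm (k : Type) [Field k] {X : Scheme.{0}} [IsIntegral X] (g : X ⟶ Spec (.of k))
    [Smooth g] {U : X.Opens} (hU : IsAffineOpen U) [Nonempty U] : IsIntegrallyClosed Γ(X, U) := by
  let _ := ((Scheme.ΓSpecIso (.of k)).inv ≫ g.appLE ⊤ U le_top).hom.toAlgebra
  have : Algebra.Smooth k Γ(X, U) := ac_chart k g hU
  exact norm_smooth k _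

/-- a rational function that is locally a section is a section -/
theorem ac_glue {X : Scheme.{0}} [IsIntegral X] (V : X.Opens) [Nonempty V] (α : X.functionField)
    (h : ∀ x : V, ∃ (W : X.Opens) (_ : Nonempty W), x.1 ∈ W ∧ W ≤ V ∧
      ∃ s : Γ(X, W), X.germToFunctionField W s = α) :
    ∃ s : Γ(X, V), X.germToFunctionField V s = α := by
  choose W hn hx hW s hs using h
  have hg : ∀ (W : X.Opens) [Nonempty W], genericPoint X ∈ W := fun W _ =>
    ((genericPoint_spec X).mem_open_set_iff W.isOpen).2 (by simpa using ‹Nonempty W›)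
  obtain ⟨t, ht, -⟩ := X.sheaf.existsUnique_gluing' W V (fun x => homOfLE (hW x))
    (fun x h => Opens.mem_iSup.2 ⟨⟨x, h⟩, hx _⟩) s fun x y => by
      have : Nonempty (W x ⊓ W y : X.Opens) := ⟨⟨_, hg (W x), hg (W y)⟩⟩
      apply X.germToFunctionField_injective (W x ⊓ W y)
      exact ((X.presheaf.germ_res_apply _ _ _ _).trans (hs x)).trans
        ((X.presheaf.germ_res_apply _ _ _ _).trans (hs y)).symm
  obtain ⟨x⟩ := ‹Nonempty V›
  refine ⟨t, ?_⟩
  rw [← hs x, ← ht x]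
  exact (X.presheaf.germ_res_apply (homOfLE (hW x)) _ _ _).symm

/-- sections over any open set of a smooth integral scheme are integrally closed in the function
field -/
theorem ac_int (k : Type) [Field k] {X : Scheme.{0}} [IsIntegral X] (g : X ⟶ Spec (.of k))
    [Smooth g] (V : X.Opens) [Nonempty V] (α : X.functionField) (h : IsIntegral Γ(X, V) α) :
    ∃ s : Γ(X, V), X.germToFunctionField V s = α := by
  refine ac_glue V α fun x => ?_
  obtain ⟨_, ⟨W, hW, rfl⟩, hx, hV⟩ := X.isBasis_affineOpens.exists_subset_of_mem_open x.2 V.isOpen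
  have : Nonempty W := ⟨⟨_, hx⟩⟩
  have := ac_norm k g hW
  have := functionField_isFractionRing_of_isAffineOpen X W hW
  let _ := (X.presheaf.map (homOfLE (show W ≤ V from hV)).op).hom.toAlgebra
  have : IsScalarTower Γ(X, V) Γ(X, W) X.functionField :=
    .of_algebraMap_eq fun s => (X.presheaf.germ_res_apply (homOfLE (show W ≤ V from hV)) _ _ _).symm
  exact ⟨W, ‹_›, hx, hV, IsIntegrallyClosed.isIntegral_iff.1 h.tower_top⟩

theorem ac_surj {X Y : Scheme.{0}} (f : X ⟶ Y) [UniversallyClosed f] {U : Y.Opens}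
    (hU : IsAffineOpen U) :
    Function.Surjective (f ⁻¹ᵁ U).toSpecΓ ∧ (f.app U).hom.IsIntegral := by
  have : IsAffine U := hU
  have : CompactSpace (f ⁻¹ᵁ U) := (quasiCompact_iff_compactSpace (f ∣_ U)).1 inferInstance
  have : IsIso U.toSpecΓ := hU.isoSpec_hom ▸ inferInstance
  have : UniversallyClosed ((f ⁻¹ᵁ U).toSpecΓ ≫ Spec.map (f.app U)) := by
    rw [Scheme.Opens.toSpecΓ_naturality]
    infer_instance
  have : UniversallyClosed (f ⁻¹ᵁ U).toSpecΓ := .of_comp_of_isSeparated _ (Spec.map (f.app U))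
  have : IsDominant (f ⁻¹ᵁ U).toSpecΓ := by
    delta Scheme.Opens.toSpecΓ
    infer_instance
  have : Surjective (f ⁻¹ᵁ U).toSpecΓ := inferInstance
  refine ⟨this.1, ?_⟩
  rw [← IsIntegralHom.SpecMap_iff, IsIntegralHom.iff_universallyClosed_and_isAffineHom]
  exact ⟨.of_comp_surjective (f ⁻¹ᵁ U).toSpecΓ _, inferInstance⟩

/-- `f_* O_X = O_Y` on affine opens when the closed fibres are connected -/
theorem ac_app (k : Type) [Field k] [IsAlgClosed k] [CharZero k] {X Y : Scheme.{0}} [IsIntegral X]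
    [IsIntegral Y] (f : X ⟶ Y) (g : Y ⟶ Spec (.of k)) [Smooth g] [UniversallyClosed f]
    [IsDominant f] (hc : ∀ y : Y, IsClosed {y} → _root_.IsPreconnected (f ⁻¹' {y})) {U : Y.Opens}
    (hU : IsAffineOpen U) [Nonempty U] : Function.Bijective (f.app U) := by
  obtain ⟨h1, h2⟩ := ac_surj f hU
  have : Nonempty (f ⁻¹ᵁ U) := by
    obtain ⟨y⟩ := ‹Nonempty U›
    obtain ⟨x, hx⟩ := f.denseRange.exists_mem_open U.isOpen ⟨_, y.2⟩
    exact ⟨⟨x, hx⟩⟩
  have := IsSchemeTheoreticallyDominant.of_isDominant f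
  have hi : Function.Injective (f.app U) := f.app_injective U
  let _ := ((Scheme.ΓSpecIso (.of k)).inv ≫ g.appLE ⊤ U le_top).hom.toAlgebra
  have : Algebra.Smooth k Γ(Y, U) := ac_chart k g hU
  have := ac_norm k g hU
  let _ := (f.app U).hom.toAlgebra
  have : Algebra.IsIntegral Γ(Y, U) Γ(X, f ⁻¹ᵁ U) := ⟨h2⟩
  have : FaithfulSMul Γ(Y, U) Γ(X, f ⁻¹ᵁ U) := (faithfulSMul_iff_algebraMap_injective _ _).2 hi
  have : JacobsonSpace Y := LocallyOfFiniteType.jacobsonSpace g
  refine ⟨hi, ac_ring k Γ(Y, U) Γ(X, f ⁻¹ᵁ U) fun m hm => ?_⟩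
  let q : Spec Γ(Y, U) := ⟨m, hm.isPrime⟩
  have hq : IsClosed {hU.fromSpec q} := by
    have : q ∈ closedPoints (Spec Γ(Y, U)) := (PrimeSpectrum.isClosed_singleton_iff_isMaximal q).2 hm
    rwa [← hU.fromSpec.isOpenEmbedding.preimage_closedPoints] at this
  have e : ∀ x : (f ⁻¹ᵁ U : X.Opens),
      hU.fromSpec (Spec.map (f.app U) ((f ⁻¹ᵁ U).toSpecΓ x)) = f x.1 := fun x => by
    rw [← Scheme.Hom.comp_apply, ← Scheme.Hom.comp_apply, ← Category.assoc,
      Scheme.Opens.toSpecΓ_naturality, Category.assoc, hU.toSpecΓ_fromSpec, morphismRestrict_ι]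
    rfl
  have h3 : _root_.IsPreconnected ((f ⁻¹ᵁ U).ι ⁻¹' (f ⁻¹' {hU.fromSpec q})) :=
    (hc _ hq).preimage_of_isOpenMap (f ⁻¹ᵁ U).ι.isOpenEmbedding.injective
      (f ⁻¹ᵁ U).ι.isOpenEmbedding.isOpenMap fun x hx => ⟨⟨x, by
        have h4 : f x ∈ range hU.fromSpec := ⟨q, hx.symm⟩
        rwa [hU.range_fromSpec] at h4⟩, rfl⟩
  refine (congrArg _root_.IsPreconnected (Set.ext fun p => ⟨?_, fun hp => ?_⟩)).mp
    (h3.image _ (f ⁻¹ᵁ U).toSpecΓ.continuous.continuousOn)
  · rintro ⟨x, hx, rfl⟩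
    exact congrArg PrimeSpectrum.asIdeal (hU.fromSpec.isOpenEmbedding.injective ((e x).trans hx))
  · obtain ⟨x, rfl⟩ := h1 p
    exact ⟨x, (e x).symm.trans (congrArg hU.fromSpec (PrimeSpectrum.ext hp)), rfl⟩

/-- the function field of the base is algebraically closed in that of the total space -/
theorem ac_scheme (k : Type) [Field k] [IsAlgClosed k] [CharZero k] {X Y : Scheme.{0}}
    [IsIntegral X] [IsIntegral Y] (f : X ⟶ Y) (g : Y ⟶ Spec (.of k)) (g' : X ⟶ Spec (.of k))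
    [Smooth g] [Smooth g'] [UniversallyClosed f] [IsDominant f]
    (hc : ∀ y : Y, IsClosed {y} → _root_.IsPreconnected (f ⁻¹' {y}))
    [Algebra Y.functionField X.functionField]
    (hι : ∀ (U : Y.Opens) [Nonempty U] [Nonempty (f ⁻¹ᵁ U)] (s : Γ(Y, U)),
      algebraMap Y.functionField X.functionField (Y.germToFunctionField U s) =
        X.germToFunctionField (f ⁻¹ᵁ U) (f.app U s))
    (α : X.functionField) (hα : IsAlgebraic Y.functionField α) :
    α ∈ (algebraMap Y.functionField X.functionField).range := by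
  obtain ⟨_, ⟨U, hU, rfl⟩, hy, -⟩ := Y.isBasis_affineOpens.exists_subset_of_mem_open
    (mem_univ (genericPoint Y)) isOpen_univ
  have : Nonempty U := ⟨⟨_, hy⟩⟩
  have : Nonempty (f ⁻¹ᵁ U) := by
    obtain ⟨x, hx⟩ := f.denseRange.exists_mem_open U.isOpen ⟨_, hy⟩
    exact ⟨⟨x, hx⟩⟩
  have := functionField_isFractionRing_of_isAffineOpen Y U hU
  let _ := (f.app U).hom.toAlgebra
  let _ : Algebra Γ(Y, U) X.functionField :=
    ((X.germToFunctionField (f ⁻¹ᵁ U)).hom.comp (f.app U).hom).toAlgebra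
  have : IsScalarTower Γ(Y, U) Γ(X, f ⁻¹ᵁ U) X.functionField := .of_algebraMap_eq fun _ => rfl
  have : IsScalarTower Γ(Y, U) Y.functionField X.functionField :=
    .of_algebraMap_eq fun s => (hι U s).symm
  obtain ⟨b, h0, hb⟩ :=
    ((IsFractionRing.isAlgebraic_iff Γ(Y, U) Y.functionField _).2 hα).exists_integral_multiple
  obtain ⟨s, hs⟩ := ac_int k g' (f ⁻¹ᵁ U) _ hb.tower_top
  obtain ⟨a, rfl⟩ := (ac_app k f g hc hU).2 s
  refine ⟨algebraMap Γ(Y, U) _ a / algebraMap Γ(Y, U) _ b, ?_⟩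
  have h1 : algebraMap Γ(Y, U) X.functionField b ≠ 0 := by
    rw [IsScalarTower.algebraMap_apply Γ(Y, U) Y.functionField, map_ne_zero,
      map_ne_zero_iff _ (IsFractionRing.injective _ _)]
    exact h0
  rw [map_div₀, ← IsScalarTower.algebraMap_apply, ← IsScalarTower.algebraMap_apply,
    div_eq_iff h1, mul_comm, ← Algebra.smul_def]
  exact hs

end Pool.Agent.Lib.MP_5c318e_ag
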