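import Pool.Agent.Lib.MP_5c318e_ag.S.SDefs

/-! Generic smoothness in characteristic zero. -/

set_option autoImplicit false

namespace Pool.Agent.Lib.MP_5c318e_ag

open Algebra KaehlerDifferential TensorProduct IsLocalRing Set

section gs

variable (k K : Type) [Field k] [CharZero k] [Field K] [Algebra k K]

theorem gs_inj (L : Type) [Field L] [Algebra k L] [Algebra K L] [IsScalarTower k K L]
    [EssFiniteType K L] : Function.Injective (mapBaseChange k K L) := by
  have : CharZero K := charZero_of_injective_algebraMap (algebraMap k K).injective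
  refine (injective_iff_map_eq_zero _).2 fun x hx => ?_
  obtain ⟨y, rfl⟩ := (H1Cotangent.exact_δ_mapBaseChange k K L x).1 hx
  rw [Subsingleton.elim y 0, map_zero]

omit [CharZero k] in
theorem gs_map (S L : Type) [CommRing S] [Algebra k S] [Algebra K S] [IsScalarTower k K S]
    [Field L] [Algebra k L] [Algebra K L] [Algebra S L] [IsScalarTower k K L] [IsScalarTower k S L]
    [IsScalarTower K S L] (w : Ω[K⁄k]) :
    KaehlerDifferential.map k k S L (KaehlerDifferential.map k k K S w) =
      KaehlerDifferential.map k k K L w := by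
  have hw : w ∈ Submodule.span K (range (D k K)) := by rw [span_range_derivation]; trivial
  refine Submodule.span_induction ?_ (by simp) (fun _ _ _ _ a b => by simp [a, b])
    (fun c _ _ a => ?_) hw
  · rintro _ ⟨c, rfl⟩
    rw [map_D, map_D, map_D, ← IsScalarTower.algebraMap_apply]
  · rw [map_smul, map_smul (KaehlerDifferential.map k k K L), ← a, ← algebraMap_smul S c, map_smul,
      algebraMap_smul]

theorem gs_lt (S L : Type) [CommRing S] [Algebra k S] [Algebra K S] [IsScalarTower k K S]
    [Field L] [Algebra k L] [Algebra K L] [Algebra S L] [IsScalarTower k K L] [IsScalarTower k S L]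
    [IsScalarTower K S L] [EssFiniteType K L] :
    Function.Injective ((mapBaseChange k K S).lTensor L) := by
  have e : ∀ t, mapBaseChange k S L ((mapBaseChange k K S).lTensor L t) =
      mapBaseChange k K L (AlgebraTensorModule.cancelBaseChange K S L L Ω[K⁄k] t) := fun t => by
    induction t using TensorProduct.induction_on with
    | zero => simp only [map_zero]
    | add x y hx hy => simp only [map_add, hx, hy]
    | tmul a x =>
      induction x using TensorProduct.induction_on with
      | zero => simp only [tmul_zero, map_zero]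
      | add x y hx hy => simp only [tmul_add, map_add, hx, hy]
      | tmul s w =>
        rw [LinearMap.lTensor_tmul, mapBaseChange_tmul, mapBaseChange_tmul, map_smul, gs_map,
          AlgebraTensorModule.cancelBaseChange_tmul, mapBaseChange_tmul, smul_assoc, smul_comm]
  refine Function.Injective.of_comp (f := mapBaseChange k S L) fun x y h => ?_
  rw [Function.comp_apply, Function.comp_apply, e, e] at h
  exact LinearEquiv.injective _ (gs_inj k K L h)

theorem gs_local [EssFiniteType k K] (S : Type) [CommRing S] [IsLocalRing S] [Algebra k S]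
    [Algebra K S] [IsScalarTower k K S] [EssFiniteType K S] [FormallySmooth k S] :
    FormallySmooth K S := by
  have : EssFiniteType k S := .comp k K S
  have : Module.Free S Ω[S⁄k] := Module.free_of_flat_of_isLocalRing
  have : EssFiniteType K (ResidueField S) := .comp K S _
  have h1 := gs_lt k K S (ResidueField S)
  obtain ⟨r, hr⟩ := (split_injective_iff_lTensor_residueField_injective _).2 h1
  have hi : Function.Injective (mapBaseChange k K S) :=
    Function.HasLeftInverse.injective ⟨r, LinearMap.congr_fun hr⟩
  obtain ⟨s, hs⟩ : ∃ s, KaehlerDifferential.map k K S S ∘ₗ s = LinearMap.id :=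
    (((exact_mapBaseChange_map k K S).split_tfae hi (map_surjective k K S)).out 1 0).1
      (Exists.intro r hr)
  refine ⟨.of_split s _ hs, ⟨fun x y => ?_⟩⟩
  have key : ∀ x : H1Cotangent K S, x = 0 := fun x => by
    obtain ⟨z, rfl⟩ := (H1Cotangent.exact_map_δ k K S x).1
      (hi (((H1Cotangent.exact_δ_mapBaseChange k K S _).2 ⟨x, rfl⟩).trans (map_zero _).symm))
    rw [Subsingleton.elim z 0, map_zero]
  rw [key x, key y]

/-- a finitely generated `K`-algebra that is formally smooth over `k` is smooth over `K` -/
theorem gs_smooth [EssFiniteType k K] (R : Type) [CommRing R] [Algebra k R] [Algebra K R]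
    [IsScalarTower k K R] [FiniteType K R] [FormallySmooth k R] : Smooth K R := by
  have : FinitePresentation K R := FinitePresentation.of_finiteType.1 inferInstance
  refine ⟨smoothLocus_eq_univ_iff.1 (eq_univ_of_forall fun p => ?_), this⟩
  have : FormallySmooth R (Localization.AtPrime p.asIdeal) := .of_isLocalization p.asIdeal.primeCompl
  have : FormallySmooth k (Localization.AtPrime p.asIdeal) := .comp k R _
  exact gs_local k K (Localization.AtPrime p.asIdeal)

end gs

/-- charts that are smooth over `k` and contain a chart of the base give a smooth model over `K` -/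
theorem SmoothModel.generic {k K M : Type} [Field k] [CharZero k] [Field K] [Field M] [Algebra k K]
    [Algebra k M] [Algebra K M] [IsScalarTower k K M] [EssFiniteType k K] {N : ℕ}
    (A : Fin N → Subalgebra k M) (hA : ∀ i, Smooth k (A i) ∧ IsFractionRing (A i) M)
    (hK : ∀ i (c : K), ∃ b : K, b ≠ 0 ∧ algebraMap K M b ∈ A i ∧ algebraMap K M (c * b) ∈ A i)
    (hv : ∀ O : ValuationSubring M, (∀ c : K, algebraMap K M c ∈ O) → ∃ i, ∀ a ∈ A i, a ∈ O) :
    SmoothModel K M := by
  refine ⟨N, fun i => adjoin K (A i : Set M), fun i => ?_, fun O hO => (hv O hO).imp fun i h a ha =>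
    adjoin_induction h hO (fun _ _ _ _ => add_mem) (fun _ _ _ _ => mul_mem) ha⟩
  obtain ⟨h1, h2⟩ := hA i
  let R := adjoin K (A i : Set M)
  let j : A i →+* R := (A i).val.toRingHom.codRestrict R fun a => subset_adjoin a.2
  let _ := j.toAlgebra
  have : IsScalarTower (A i) R M := .of_algebraMap_eq fun _ => rfl
  have : IsScalarTower k (A i) R := .of_algebraMap_eq fun _ => rfl
  let S : Submonoid (A i) :=
    { carrier := {a | ∃ b : K, b ≠ 0 ∧ algebraMap K M b = a}
      mul_mem' := fun ⟨b, h, e⟩ ⟨b', h', e'⟩ => ⟨b * b', mul_ne_zero h h', by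
        rw [map_mul, e, e', MulMemClass.coe_mul]⟩
      one_mem' := ⟨1, one_ne_zero, map_one _⟩ }
  have key : ∀ x ∈ R, ∃ (a : A i) (s : S), x * (s : A i) = a := fun x hx => by
    refine adjoin_induction (fun x hx => ⟨⟨x, hx⟩, 1, mul_one _⟩) (fun c => ?_) ?_ ?_ hx
    · obtain ⟨b, h0, hb, hc⟩ := hK i c
      exact ⟨⟨_, hc⟩, ⟨⟨_, hb⟩, b, h0, rfl⟩, (map_mul _ _ _).symm⟩
    · rintro x y - - ⟨a, s, e⟩ ⟨a', s', e'⟩
      exact ⟨a * s' + a' * s, s * s', by push_cast; rw [← e, ← e']; ring⟩
    · rintro x y - - ⟨a, s, e⟩ ⟨a', s', e'⟩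
      exact ⟨a * a', s * s', by push_cast; rw [← e, ← e']; ring⟩
  have : IsLocalization S R :=
    { map_units := fun ⟨s, b, h0, e⟩ => by
        have : algebraMap (A i) R s = algebraMap K R b := Subtype.ext e.symm
        exact this ▸ (IsUnit.mk0 b h0).map _
      surj := fun x => by
        obtain ⟨a, s, e⟩ := key x x.2
        exact ⟨(a, s), Subtype.ext e⟩
      exists_of_eq := fun {x y} h => ⟨1, by
        rw [Subtype.ext (show (x : M) = y from congrArg (fun r : R => (r : M)) h)]⟩ }
  have : FormallySmooth (A i) R := .of_isLocalization S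
  have : FormallySmooth k R := .comp k (A i) R
  have : FiniteType K R := by
    obtain ⟨s, hs⟩ := (Subalgebra.fg_iff_finiteType (A i)).2 inferInstance
    refine (Subalgebra.fg_iff_finiteType R).1 ⟨s, le_antisymm (adjoin_mono (hs ▸ subset_adjoin))
      (adjoin_le fun a ha => ?_)⟩
    rw [← hs] at ha
    exact adjoin_induction (fun _ h => subset_adjoin h)
      (fun c => IsScalarTower.algebraMap_apply k K M c ▸ Subalgebra.algebraMap_mem _ _)
      (fun _ _ _ _ => add_mem) (fun _ _ _ _ => mul_mem) ha
  exact ⟨gs_smooth k K R, IsFractionRing.of_field R M fun z => by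
    obtain ⟨a, b, -, e⟩ := IsFractionRing.div_surjective (A := A i) z
    exact ⟨j a, j b, e.symm⟩⟩

end Pool.Agent.Lib.MP_5c318e_ag
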