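import Pool.Agent.Lib.MP_5c318e_ag.Sch.SchDefs
import Pool.Agent.Lib.MP_5c318e_ag.Sch.AlgCl
import Pool.Agent.Lib.MP_5c318e_ag.Sch.GenSm

/-! Local rings and affine charts inside the function field; centres of valuation rings. -/

set_option autoImplicit false

namespace Pool.Agent.Lib.MP_5c318e_ag.Sch

open AlgebraicGeometry CategoryTheory Limits Set

noncomputable section

variable {k : Type} [Field k] {Z : Scheme.{0}} [IsIntegral Z]

/-- the local ring at `x` inside the function field -/
abbrev stk (Z : Scheme.{0}) [IsIntegral Z] (x : Z) : Subring Z.functionField :=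
  (algebraMap (Z.presheaf.stalk x) Z.functionField).range

/-- the constants inside the function field are those given by `s` -/
def Cst (s : Z ⟶ Spec (CommRingCat.of k)) [Algebra k Z.functionField] : Prop :=
  Spec.map (CommRingCat.ofHom (algebraMap k Z.functionField)) =
    Z.fromSpecStalk (genericPoint Z) ≫ s

theorem spec_const (s : Z ⟶ Spec (CommRingCat.of k)) :
    Spec.map ((Scheme.ΓSpecIso (CommRingCat.of k)).inv ≫ s.appTop ≫
      Z.presheaf.germ ⊤ (genericPoint Z) trivial) = Z.fromSpecStalk (genericPoint Z) ≫ s := by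
  rw [Spec.map_comp, Spec.map_comp, ← Scheme.fromSpecStalk_toSpecΓ, Category.assoc,
    Category.assoc, ← Scheme.toSpecΓ_naturality_assoc, ← SpecMap_ΓSpecIso_hom, ← Spec.map_comp]
  simp

theorem cst_const (s : Z ⟶ Spec (CommRingCat.of k)) : @Cst k _ Z _ s (constAlgebra s) :=
  spec_const s

variable {s : Z ⟶ Spec (CommRingCat.of k)} [Algebra k Z.functionField]

theorem Cst.germ (h : Cst s) (U : Z.Opens) [Nonempty U] (c : k) :
    Z.germToFunctionField U (((Scheme.ΓSpecIso (.of k)).inv ≫ s.appLE ⊤ U le_top).hom c) =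
      algebraMap k Z.functionField c := by
  have h1 := Spec.map_injective ((spec_const s).trans h.symm)
  have h2 : (Scheme.ΓSpecIso (.of k)).inv ≫ s.appLE ⊤ U le_top ≫ Z.germToFunctionField U =
      CommRingCat.ofHom (algebraMap k Z.functionField) := by
    rw [← h1]
    congr 1
    exact (Category.assoc _ _ _).trans (congrArg _ (Z.presheaf.germ_res _ _ _))
  exact DFunLike.congr_fun (congrArg CommRingCat.Hom.hom h2) c

theorem germ_mem_stk {U : Z.Opens} [Nonempty U] {x : Z} (hx : x ∈ U) (t : Γ(Z, U)) :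
    Z.germToFunctionField U t ∈ stk Z x :=
  ⟨_, Z.algebraMap_germ_eq_germToFunctionField hx t⟩

theorem Cst.chart (h : Cst s) {U : Z.Opens} (hU : IsAffineOpen U) [Nonempty U] :
    ∃ A : Subalgebra k Z.functionField, (∀ a, a ∈ A ↔ ∃ t, Z.germToFunctionField U t = a) ∧
      IsFractionRing A Z.functionField ∧ (LocallyOfFiniteType s → A.FG) ∧
      (Smooth s → Algebra.Smooth k A) := by
  let _ := ((Scheme.ΓSpecIso (.of k)).inv ≫ s.appLE ⊤ U le_top).hom.toAlgebra
  have : IsScalarTower k Γ(Z, U) Z.functionField := .of_algebraMap_eq fun c => (h.germ U c).symm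
  have := functionField_isFractionRing_of_isAffineOpen Z U hU
  let j := IsScalarTower.toAlgHom k Γ(Z, U) Z.functionField
  have hj : Function.Injective j := Z.germToFunctionField_injective U
  refine ⟨j.range, fun _ => Iff.rfl, IsFractionRing.of_field _ _ fun y => ?_, fun _ => ?_,
    fun _ => ?_⟩
  · obtain ⟨a, b, -, rfl⟩ := IsFractionRing.div_surjective (A := Γ(Z, U)) y
    exact ⟨⟨_, a, rfl⟩, ⟨_, b, rfl⟩, rfl⟩
  · have : Algebra.FiniteType k Γ(Z, U) := RingHom.finiteType_respectsIso.2 _
      (Scheme.ΓSpecIso (.of k)).symm.commRingCatIsoToRingEquiv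
      (s.finiteType_appLE (isAffineOpen_top _) hU le_top)
    rw [← Algebra.map_top]
    exact Algebra.FiniteType.out.map _
  · have : Algebra.Smooth k Γ(Z, U) := ac_chart k s hU
    exact .of_equiv (AlgEquiv.ofInjective j hj)

theorem Cst.fg (h : Cst s) [LocallyOfFiniteType s] :
    (⊤ : IntermediateField k Z.functionField).FG := by
  obtain ⟨_, ⟨U, hU, rfl⟩, hy, -⟩ := Z.isBasis_affineOpens.exists_subset_of_mem_open
    (mem_univ (genericPoint Z)) isOpen_univ
  have : Nonempty U := ⟨⟨_, hy⟩⟩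
  obtain ⟨A, -, _, h3, -⟩ := h.chart hU
  obtain ⟨t, rfl⟩ := h3 ‹_›
  refine ⟨t, top_le_iff.1 fun x _ => ?_⟩
  obtain ⟨a, b, -, rfl⟩ := IsFractionRing.div_surjective
    (A := Algebra.adjoin k (t : Set Z.functionField)) x
  exact div_mem (IntermediateField.algebra_adjoin_le_adjoin k _ a.2)
    (IntermediateField.algebra_adjoin_le_adjoin k _ b.2)

/-- every valuation ring of the function field has a centre -/
theorem Cst.center (h : Cst s) [hs : UniversallyClosed s] (V : ValuationSubring Z.functionField)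
    (hV : ∀ c, algebraMap k Z.functionField c ∈ V) : ∃ x, ∀ a ∈ stk Z x, a ∈ V := by
  rw [UniversallyClosed.eq_valuativeCriterion] at hs
  have w : Z.fromSpecStalk (genericPoint Z) ≫ s =
      Spec.map (CommRingCat.ofHom (algebraMap V Z.functionField)) ≫
        Spec.map (CommRingCat.ofHom ((algebraMap k Z.functionField).codRestrict V hV)) := by
    rw [← h, ← Spec.map_comp]
    rfl
  obtain ⟨l, h1, -⟩ := (hs.1 { R := V, K := Z.functionField, commSq := ⟨w⟩, .. }).exists_lift
  dsimp only at h1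
  have h2 : Scheme.stalkClosedPointTo l ≫ CommRingCat.ofHom (algebraMap V Z.functionField) =
      Z.presheaf.stalkSpecializes ((genericPoint_spec Z).specializes trivial) := by
    apply Spec.map_injective
    rw [← cancel_mono (Z.fromSpecStalk _), Spec.map_comp, Category.assoc,
      Scheme.Spec_stalkClosedPointTo_fromSpecStalk, h1,
      Scheme.SpecMap_stalkSpecializes_fromSpecStalk]
  refine ⟨l (IsLocalRing.closedPoint V), ?_⟩
  rintro _ ⟨a, rfl⟩
  have h3 := DFunLike.congr_fun (congrArg CommRingCat.Hom.hom h2) a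
  exact (show (((Scheme.stalkClosedPointTo l).hom a : V) : Z.functionField) = _ from h3) ▸
    ((Scheme.stalkClosedPointTo l).hom a).2

/-- a finite cover by affine charts subordinate to a class of open sets -/
theorem Cst.cover (h : Cst s) [IsProper s] [Smooth s] (P : Z.Opens → Prop)
    (hP : ∀ x : Z, ∃ U, IsAffineOpen U ∧ x ∈ U ∧ P U) :
    ∃ (N : ℕ) (A : Fin N → Subalgebra k Z.functionField),
      (∀ i, Algebra.Smooth k (A i) ∧ IsFractionRing (A i) Z.functionField) ∧
      (∀ i, ∃ (U : Z.Opens) (_ : Nonempty U), P U ∧ ∀ t, Z.germToFunctionField U t ∈ A i) ∧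
      ∀ O : ValuationSubring Z.functionField, (∀ c, algebraMap k Z.functionField c ∈ O) →
        ∃ i, ∀ a ∈ A i, a ∈ O := by
  choose U h1 h2 h3 using hP
  have hn : ∀ x, Nonempty (U x) := fun x => ⟨⟨x, h2 x⟩⟩
  choose A h4 h5 _ h6 using fun x => h.chart (h1 x)
  have : CompactSpace Z := (quasiCompact_iff_compactSpace s).1 inferInstance
  obtain ⟨t, ht⟩ := isCompact_univ.elim_finite_subcover (fun x => (U x : Set Z))
    (fun x => (U x).isOpen) fun x _ => mem_iUnion.2 ⟨x, h2 x⟩
  let e := t.equivFin.symm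
  refine ⟨_, fun i => A (e i), fun i => ⟨h6 _ ‹_›, h5 _⟩,
    fun i => ⟨U (e i), hn _, h3 _, fun u => (h4 _ _).2 ⟨u, rfl⟩⟩, fun O hO => ?_⟩
  obtain ⟨x, hx⟩ := h.center O hO
  obtain ⟨y, hy, hxy⟩ := mem_iUnion₂.1 (ht (mem_univ x))
  refine ⟨e.symm ⟨y, hy⟩, fun a ha => hx a ?_⟩
  simp only [Equiv.apply_symm_apply] at ha
  obtain ⟨u, rfl⟩ := (h4 y a).1 ha
  exact germ_mem_stk hxy u

theorem Cst.smoothModel (h : Cst s) [IsProper s] [Smooth s] : SmoothModel k Z.functionField := by
  obtain ⟨N, A, h1, -, h2⟩ := h.cover (fun _ => True) fun x => by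
    obtain ⟨_, ⟨U, hU, rfl⟩, hy, -⟩ := Z.isBasis_affineOpens.exists_subset_of_mem_open
      (mem_univ x) isOpen_univ
    exact ⟨U, hU, hy, trivial⟩
  exact ⟨N, A, h1, h2⟩

end

end Pool.Agent.Lib.MP_5c318e_ag.Sch
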