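import Pool.Agent.Lib.MP_5c318e_ag.Sch.Form
import Pool.Agent.Lib.MP_5c318e_ag.Sch.Loc
import Pool.Agent.Lib.MP_5c318e_ag.S.AFrm
import Pool.Agent.Lib.MP_5c318e_ag.S.Top

/-! The Kodaira dimension of a scheme and of its function field. -/

set_option autoImplicit false

namespace Pool.Agent.Lib.MP_5c318e_ag.Sch

open AlgebraicGeometry CategoryTheory Limits Set

noncomputable section

section field

variable {k F Z : Type} [Field k] [CharZero k] [Field F] [Algebra k F]

theorem exists_dual (h : (⊤ : IntermediateField k F).FG) :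
    ∃ (z : Fin (Algebra.trdeg k F).toNat → F) (d : _ → Derivation k F F), Dual k z d := by
  have : Algebra.EssFiniteType k F := IntermediateField.fg_top_iff.1 h
  obtain ⟨z, hz⟩ := exists_basis_of_trdeg (ι := Fin (Algebra.trdeg k F).toNat) (k := k) (F := F)
    (by rw [Fintype.card_fin, Cardinal.cast_toNat_of_lt_aleph0 (trdeg_lt_aleph0 k F)])
  exact ⟨z, Dual.exists hz⟩

theorem regI_of_cf {n m : ℕ} {d : Fin n → Derivation k F F} {O : Subring F}
    {V : ValuationSubring F} (h : ∀ a ∈ O, a ∈ V) {φ : F} (hφ : φ ∈ cf d O m) : RegI d m φ V := by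
  induction hφ using AddSubgroup.closure_induction with
  | mem t ht =>
    obtain ⟨a, ha, g, hg, rfl⟩ := ht
    refine RegI.mem_mul ?_ (h a ha)
    have : ∀ s : Finset (Fin m), RegI d s.card (∏ i ∈ s, Jac d (g i)) V := fun s => by
      induction s using Finset.induction_on with
      | empty => exact ⟨0, fun _ => zero_mem _, 1, one_mem _, by simp⟩
      | insert i s hi ih =>
        rw [Finset.prod_insert hi, Finset.card_insert_of_notMem hi, mul_comm]
        exact ih.mul ⟨g i, fun j => h _ (hg i j), 1, one_mem _, by simp⟩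
    simpa using this Finset.univ
  | zero => exact RegI.zero _ _
  | add _ _ _ _ h1 h2 => exact h1.add h2
  | neg a _ h1 => simpa using h1.mem_mul (neg_mem (one_mem V))

theorem kodairaOf_le (hfg : (⊤ : IntermediateField k F).FG) (O : Z → Subring F)
    (h : ∀ V : ValuationSubring F, (∀ c, algebraMap k F c ∈ V) → ∃ x, ∀ a ∈ O x, a ∈ V) :
    kodairaOf k F O ≤ (kod k F).map Cardinal.toENat := by
  obtain ⟨z, d, hd⟩ := exists_dual hfg
  have h1 : ∀ m φ, (∀ x, φ ∈ cf d (O x) m) → Plu d m φ := fun m φ hφ V hV => by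
    obtain ⟨x, hx⟩ := h V hV.const
    exact regI_of_cf hx (hφ x)
  rw [kodairaOf, detDim_eq hd]
  refine iSup₂_le fun m hm => iSup₂_le fun φ hφ => iSup_le fun h0 => ?_
  have h2 : {g : F | ∀ x, g * φ ∈ cf d (O x) m} ⊆ ratios k F := fun g hg =>
    hd.ratios_eq ▸ ⟨m, hm, _, φ, h1 m _ hg, h1 m φ hφ, h0, (mul_div_cancel_right₀ _ h0).symm⟩
  rw [kod, if_pos ⟨1, h2 fun x => by simpa using hφ x⟩, WithBot.map_coe, WithBot.coe_le_coe,
    ← trk_kR, ← trk_kR]
  exact trk_mono _ h2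

theorem le_kodairaOf (hfg : (⊤ : IntermediateField k F).FG) (O : Z → Subring F)
    (h : ∀ (n : ℕ) (z : Fin n → F) (d : Fin n → Derivation k F F), Dual k z d → ∀ x,
      ∃ f : Fin n → F, (∀ j, f j ∈ O x) ∧ Jac d f ≠ 0 ∧ ∀ m φ, Plu d m φ → φ / Jac d f ^ m ∈ O x) :
    (kod k F).map Cardinal.toENat ≤ kodairaOf k F O := by
  obtain ⟨z, d, hd⟩ := exists_dual hfg
  have h1 : ∀ m φ, PluD d m φ → ∀ x, φ ∈ cf d (O x) m := fun m φ hφ x => by
    obtain ⟨f, h1, h2, h3⟩ := h _ z d hd x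
    exact AddSubgroup.subset_closure ⟨_, h3 m φ ((plu_iff hd.isFr).2 hφ), fun _ => f,
      fun _ => h1, by simp [div_mul_cancel₀ _ (pow_ne_zero m h2)]⟩
  by_cases hne : kod k F = ⊥
  · simp [hne]
  obtain ⟨n, hn, -⟩ := kod_eq_nat hd.isFr hne
  obtain ⟨m, hm, ψ, h0, h2, g, h3, h4⟩ := (le_kod_iff hd.isFr).1 hn.ge
  rw [kodairaOf, detDim_eq hd, hn, WithBot.map_coe]
  refine le_iSup₂_of_le m hm (le_iSup₂_of_le ψ (h1 m ψ h2) (le_iSup_of_le h0 ?_))
  rw [WithBot.coe_le_coe, ← trk_kR, Cardinal.toENat_nat, le_trk_iff]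
  exact ⟨g, fun a => h1 m _ (h4 a), indep_kR_iff.2 h3⟩

end field

variable {k : Type} [Field k] [CharZero k] {Z : Scheme.{0}} [IsIntegral Z]
  (s : Z ⟶ Spec (CommRingCat.of k))

theorem kodaira_le [UniversallyClosed s] [LocallyOfFiniteType s] :
    kodaira s ≤ (@kod k Z.functionField _ _ (constAlgebra s)).map Cardinal.toENat :=
  letI := constAlgebra s
  kodairaOf_le (cst_const s).fg _ (cst_const s).center

theorem le_kodaira [Smooth s] :
    (@kod k Z.functionField _ _ (constAlgebra s)).map Cardinal.toENat ≤ kodaira s := by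
  let _ := constAlgebra s
  refine le_kodairaOf (cst_const s).fg _ fun n z d hd x => ?_
  obtain ⟨W, hW, U, hU, hx, e, h1⟩ := Smooth.exists_isStandardSmooth s x
  obtain rfl : W = ⊤ := top_le_iff.1 fun y _ => Subsingleton.elim (s x) y ▸ e hx
  have : Nonempty U := ⟨⟨x, hx⟩⟩
  let _ := ((Scheme.ΓSpecIso (.of k)).inv ≫ s.appLE ⊤ U le_top).hom.toAlgebra
  have : IsScalarTower k Γ(Z, U) Z.functionField :=
    .of_algebraMap_eq fun c => ((cst_const s).germ U c).symm
  have := functionField_isFractionRing_of_isAffineOpen Z U hU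
  obtain ⟨l, φ, h2, h3⟩ := RingHom.IsStandardSmooth.exists_etale_mvPolynomial
    (f := algebraMap k Γ(Z, U)) (RingHom.isStandardSmooth_respectsIso.2 _
      (Scheme.ΓSpecIso (.of k)).symm.commRingCatIsoToRingEquiv h1)
  obtain ⟨f, h4, Pr, h5, -, h6⟩ := chart_of_etale hd (A := Γ(Z, U))
    { φ with commutes' := fun a => DFunLike.congr_fun h2 a } h3
  refine ⟨_, fun j => germ_mem_stk hx (f j), h4, fun m ψ hψ => ?_⟩
  obtain ⟨a, ha⟩ := h6 m ψ fun O hO => hψ O (h5 O hO)
  exact ha ▸ germ_mem_stk hx a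

end

end Pool.Agent.Lib.MP_5c318e_ag.Sch
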