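import Pool.Agent.Lib.MP_5c318e_ag.Sch.Rel
import Pool.Agent.Lib.MP_5c318e_ag.Sch.Kod
import Pool.Agent.Lib.MP_5c318e_ag.S.Geo

/-! From a fibre space of schemes to its function fields. -/

set_option autoImplicit false

namespace Pool.Agent.Lib.MP_5c318e_ag.Sch

open AlgebraicGeometry CategoryTheory Limits Set

noncomputable section

theorem map_add_le {a b c : WithBot Cardinal} (h : a + b ≤ c) :
    a.map Cardinal.toENat + b.map Cardinal.toENat ≤ c.map Cardinal.toENat := by
  have h1 := OrderHomClass.mono Cardinal.toENat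
  refine le_trans ?_ (h1.withBot_map h)
  cases a <;> cases b <;> simp [← WithBot.coe_add]

theorem bridge {X Y : Scheme.{0}} [IsIntegral X] [IsIntegral Y]
    (sX : X ⟶ Spec (CommRingCat.of ℂ)) (sY : Y ⟶ Spec (CommRingCat.of ℂ))
    [Smooth sX] [IsProper sX] [Smooth sY] [IsProper sY] (f : X ⟶ Y) (hf : f ≫ sY = sX)
    [Surjective f] (hc : ∀ y : Y, IsClosed ({y} : Set Y) → _root_.IsConnected (f ⁻¹' {y})) :
    letI := constAlgebra sX
    letI := constAlgebra sY
    ∃ (_ : IsProper f) (_ : IsIntegral (pullback f (geomPoint Y)))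
      (_ : Algebra Y.functionField X.functionField)
      (_ : Algebra X.functionField (pullback f (geomPoint Y)).functionField)
      (_ : Algebra Y.functionField (pullback f (geomPoint Y)).functionField),
      letI := constAlgebra (pullback.snd f (geomPoint Y))
      IsScalarTower ℂ Y.functionField X.functionField ∧
      IsScalarTower Y.functionField X.functionField (pullback f (geomPoint Y)).functionField ∧
      IsScalarTower Y.functionField (AlgebraicClosure Y.functionField)
        (pullback f (geomPoint Y)).functionField ∧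
      IntermediateField.adjoin X.functionField (range (algebraMap (AlgebraicClosure Y.functionField)
        (pullback f (geomPoint Y)).functionField)) = ⊤ ∧
      SmoothModel Y.functionField X.functionField ∧
      ∀ a : X.functionField, IsAlgebraic Y.functionField a →
        a ∈ range (algebraMap Y.functionField X.functionField) := by
  let _ := constAlgebra sX
  let _ := constAlgebra sY
  have : IsProper (f ≫ sY) := hf ▸ inferInstance
  have : IsProper f := .of_comp f sY
  obtain ⟨φ, h1, h2⟩ := exists_fld f
  let _ := φ.hom.toAlgebra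
  have := (cst_const sX).tower (cst_const sY) hf h1
  have h3 := ac_scheme ℂ f sY sX (fun y hy => (hc y hy).2) h2
  have : CharZero Y.functionField :=
    charZero_of_injective_algebraMap (algebraMap ℂ Y.functionField).injective
  obtain ⟨_, ψ, h4, h5⟩ := ggf h1 h3 (AlgebraicClosure Y.functionField) (geomPoint Y) rfl
  let _ := constAlgebra (pullback.snd f (geomPoint Y))
  let _ := ψ.toAlgebra
  let _ := (ψ.comp φ.hom).toAlgebra
  refine ⟨‹_›, ‹_›, ‹_›, ‹_›, ‹_›, ‹_›, .of_algebraMap_eq' rfl, .of_algebraMap_eq' h4, ?_,
    (cst_const sX).generic (cst_const sY).fg h2, h3⟩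
  exact top_le_iff.1 fun n _ => (h5 (IntermediateField.adjoin X.functionField _).toSubring
    (fun a => IntermediateField.algebraMap_mem _ a)
    fun c => IntermediateField.subset_adjoin _ _ (mem_range_self c)).ge trivial

theorem iitaka_of_abs
    (H : ∀ (K M : Type) [Field K] [Algebra ℂ K] [Field M] [Algebra ℂ M] [Algebra K M]
      [IsScalarTower ℂ K M], SmoothModel ℂ K → SmoothModel ℂ M → SmoothModel K M →
      (∀ x : M, IsAlgebraic K x → x ∈ range (algebraMap K M)) → kod K M + kod ℂ K ≤ kod ℂ M)
    {X Y : Scheme.{0}} [IsIntegral X] [IsIntegral Y]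
    (sX : X ⟶ Spec (CommRingCat.of ℂ)) (sY : Y ⟶ Spec (CommRingCat.of ℂ))
    [Smooth sX] [IsProper sX] [Smooth sY] [IsProper sY] (f : X ⟶ Y) (hf : f ≫ sY = sX)
    [Surjective f] (hc : ∀ y : Y, IsClosed ({y} : Set Y) → _root_.IsConnected (f ⁻¹' {y})) :
    ∃ _ : IsIntegral (pullback f (geomPoint Y)),
      kodaira (pullback.snd f (geomPoint Y)) + kodaira sY ≤ kodaira sX := by
  let _ := constAlgebra sX
  let _ := constAlgebra sY
  obtain ⟨_, _, _, _, _, _, _, _, h1, h2, h3⟩ := bridge sX sY f hf hc
  let _ := constAlgebra (pullback.snd f (geomPoint Y))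
  have : CharZero Y.functionField :=
    charZero_of_injective_algebraMap (algebraMap ℂ Y.functionField).injective
  let _ : Algebra Y.functionField (pullback f (geomPoint Y)).functionField := ‹_›
  obtain ⟨n, x, hx⟩ := exists_basis_of_fg h2.fg
  refine ⟨‹_›, (add_le_add (kodaira_le _) (kodaira_le sY)).trans ((map_add_le ?_).trans
    (le_kodaira sX))⟩
  exact (add_le_add_left (kod_const_le h1 hx) _).trans
    (H _ _ (cst_const sY).smoothModel (cst_const sX).smoothModel h2 h3)

end

end Pool.Agent.Lib.MP_5c318e_ag.Sch
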