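import Mathlib

/-! Two finitely generated models of one field have a common localisation. -/

set_option autoImplicit false

namespace Pool.Agent.Lib.MP_5c318e_ag.Sch

open Algebra

section

variable {E N : Type} [Field E] [Field N] [Algebra E N]

/-- the localisation of `A` at the powers of `a`, inside `N` -/
def locAw (A : Subalgebra E N) (a : A) : Subalgebra E N where
  carrier := {x | ∃ n : ℕ, x * (a : N) ^ n ∈ A}
  mul_mem' := fun {x y} ⟨n, h⟩ ⟨m, h'⟩ => ⟨n + m, by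
    rw [pow_add, mul_mul_mul_comm]
    exact mul_mem h h'⟩
  add_mem' := fun {x y} ⟨n, h⟩ ⟨m, h'⟩ => ⟨n + m, by
    rw [add_mul, pow_add, ← mul_assoc, mul_left_comm]
    exact add_mem (mul_mem h (pow_mem a.2 _)) (mul_mem (pow_mem a.2 _) h')⟩
  algebraMap_mem' := fun c => ⟨0, by simp⟩

theorem le_locAw (A : Subalgebra E N) (a : A) : A ≤ locAw A a := fun _ h => ⟨0, by simpa using h⟩

theorem inv_mem_locAw (A : Subalgebra E N) {a : A} (h : (a : N) ≠ 0) : (a : N)⁻¹ ∈ locAw A a :=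
  ⟨1, by rw [pow_one, inv_mul_cancel₀ h]; exact one_mem _⟩

theorem locAw_le {A D : Subalgebra E N} {a : A} (h0 : (a : N) ≠ 0) (h : A ≤ D)
    (ha : (a : N)⁻¹ ∈ D) : locAw A a ≤ D := fun x ⟨n, hx⟩ => by
  have := mul_mem (h hx) (pow_mem ha n)
  rwa [mul_assoc, ← mul_pow, mul_inv_cancel₀ h0, one_pow, mul_one] at this

theorem locAw_away {A D : Subalgebra E N} {a : A} (h0 : (a : N) ≠ 0) (h : A ≤ D)
    (e : D = locAw A a) : letI := (Subalgebra.inclusion h).toAlgebra; IsLocalization.Away a D := by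
  subst e
  let _ := (Subalgebra.inclusion h).toAlgebra
  exact
    { map_units := by
        rintro ⟨_, n, rfl⟩
        rw [map_pow]
        exact (IsUnit.of_mul_eq_one ⟨_, inv_mem_locAw A h0⟩
          (Subtype.ext (mul_inv_cancel₀ h0))).pow n
      surj := fun ⟨x, n, hx⟩ => ⟨(⟨_, hx⟩, ⟨_, n, rfl⟩), Subtype.ext rfl⟩
      exists_of_eq := fun {x y} e => ⟨1, by rw [Subalgebra.inclusion_injective h e]⟩ }

theorem exists_le_locAw (A C : Subalgebra E N) (hC : C.FG) [IsFractionRing A N] :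
    ∃ a : A, (a : N) ≠ 0 ∧ C ≤ locAw A a := by
  obtain ⟨s, rfl⟩ := hC
  obtain ⟨⟨a, ha⟩, h⟩ := IsLocalization.exist_integer_multiples_of_finset (nonZeroDivisors A) s
  refine ⟨a, fun e => nonZeroDivisors.ne_zero ha (Subtype.ext e), adjoin_le fun x hx => ⟨1, ?_⟩⟩
  obtain ⟨y, hy⟩ := h x hx
  rw [pow_one, mul_comm]
  exact (show (y : N) = a * x from hy) ▸ y.2

end

/-- LOC (file Sch/ComLoc): two finitely generated models of one field have a common localisation -/
theorem common_loc {E N : Type} [Field E] [Field N] [Algebra E N] (A C : Subalgebra E N)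
    (hA : A.FG) (hC : C.FG) [IsFractionRing A N] [IsFractionRing C N] :
    ∃ (D : Subalgebra E N) (hAD : A ≤ D) (hCD : C ≤ D) (a : A) (c : C),
      (letI := (Subalgebra.inclusion hAD).toAlgebra; IsLocalization.Away a D) ∧
      (letI := (Subalgebra.inclusion hCD).toAlgebra; IsLocalization.Away c D) := by
  obtain ⟨a, ha, h1⟩ := exists_le_locAw A C hC
  obtain ⟨c, hc, h2⟩ := exists_le_locAw C (A ⊔ adjoin E {(a : N)⁻¹})
    (hA.sup ⟨{(a : N)⁻¹}, by simp⟩)
  obtain ⟨n, hn⟩ := h1 c.2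
  let b : A := a * ⟨_, hn⟩
  have hb : (b : N) ≠ 0 := mul_ne_zero ha (mul_ne_zero hc (pow_ne_zero n ha))
  have h3 : A ≤ locAw C c := le_sup_left.trans h2
  have h4 : (a : N)⁻¹ ∈ locAw C c := (le_sup_right.trans h2) (subset_adjoin rfl)
  have h5 : (a : N)⁻¹ ∈ locAw A b := by
    have : (a : N)⁻¹ = (b : N)⁻¹ * (c * a ^ n) := by
      change _ = ((a : N) * (c * a ^ n))⁻¹ * _
      field_simp
    exact this ▸ mul_mem (inv_mem_locAw A hb) (le_locAw A b hn)
  refine ⟨locAw C c, h3, le_locAw C c, b, c, locAw_away hb _ (le_antisymm ?_ ?_),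
    locAw_away hc _ rfl⟩
  · refine locAw_le hc (h1.trans (locAw_le ha (le_locAw A b) h5)) ?_
    have : (c : N)⁻¹ = (b : N)⁻¹ * (a * a ^ n) := by
      change _ = ((a : N) * (c * a ^ n))⁻¹ * _
      field_simp
    exact this ▸ mul_mem (inv_mem_locAw A hb) (le_locAw A b (mul_mem a.2 (pow_mem a.2 n)))
  · refine locAw_le hb h3 ?_
    have : (b : N)⁻¹ = (a : N)⁻¹ * ((c : N)⁻¹ * (a : N)⁻¹ ^ n) := by
      change ((a : N) * (c * a ^ n))⁻¹ = _
      rw [mul_inv, mul_inv, inv_pow]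
    exact this ▸ mul_mem h4 (mul_mem (inv_mem_locAw C hc) (pow_mem h4 n))

end Pool.Agent.Lib.MP_5c318e_ag.Sch
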