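import Pool.Agent.Lib.MP_5c318e_ag.Sch.FibB
import Pool.Agent.Lib.MP_5c318e_ag.Sch.Brg
import Pool.Agent.Lib.MP_5c318e_ag.Z.Fin

/-! The general closed fibre. -/

set_option autoImplicit false

namespace Pool.Agent.Lib.MP_5c318e_ag.Sch

open AlgebraicGeometry CategoryTheory Limits Set

noncomputable section

/-- specialisation of the Kodaira dimension for affine models -/
def FibLe : Prop :=
  ∀ (K M : Type) [Field K] [Algebra ℂ K] [Field M] [Algebra ℂ M] [Algebra K M]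
    [IsScalarTower ℂ K M] (B : Subalgebra ℂ K) (A : Subalgebra ℂ M), B.FG → A.FG →
    ∀ [IsFractionRing B K] [IsFractionRing A M] (inc : B →ₐ[ℂ] A),
    (∀ a, (inc a : M) = algebraMap K M a) → ∃ g : B, g ≠ 0 ∧
      ∀ b : B →ₐ[ℂ] ℂ, b g ≠ 0 → ∀ (L : Type) [Field L] [Algebra ℂ L] (φ : A →ₐ[ℂ] L),
        (∀ a, φ (inc a) = algebraMap ℂ L (b a)) → (∀ v : L, ∃ a s : A, φ s ≠ 0 ∧ φ a = v * φ s) →
        (Algebra.trdeg ℂ L = Algebra.trdeg K M ∨
          ∀ a, φ a = 0 → a ∈ ((RingHom.ker b).map inc).radical) →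
        SmoothModel ℂ L → kod ℂ L ≤ kod K M

theorem FibLe.abs (H : FibLe) {K M B A : Type} [Field K] [Algebra ℂ K] [Field M] [Algebra ℂ M]
    [Algebra K M] [IsScalarTower ℂ K M] [CommRing B] [CommRing A] (jB : B →+* K) (jA : A →+* M)
    (hB : Function.Injective jB) (hA : Function.Injective jA) (B' : Subalgebra ℂ K)
    (A' : Subalgebra ℂ M) (eB : ∀ a, a ∈ B' ↔ ∃ t, jB t = a) (eA : ∀ a, a ∈ A' ↔ ∃ t, jA t = a)
    (fB : B'.FG) (fA : A'.FG) [IsFractionRing B' K] [IsFractionRing A' M] (inc : B →+* A)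
    (hinc : ∀ a, jA (inc a) = algebraMap K M (jB a)) : ∃ g : B, g ≠ 0 ∧
      ∀ b : B →+* ℂ, (∀ c t, jB t = algebraMap ℂ K c → b t = c) → b g ≠ 0 →
        ∀ (L : Type) [Field L] [Algebra ℂ L] (φ : A →+* L),
        (∀ a, φ (inc a) = algebraMap ℂ L (b a)) → (∀ v : L, ∃ a s : A, φ s ≠ 0 ∧ φ a = v * φ s) →
        (∀ a, φ a = 0 → a ∈ ((RingHom.ker b).map inc).radical) →
        SmoothModel ℂ L → kod ℂ L ≤ kod K M := by
  let u : B ≃+* B' := .ofBijective (jB.codRestrict B' fun t => (eB _).2 ⟨t, rfl⟩)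
    ⟨fun _ _ h => hB (congrArg Subtype.val h), fun a => ((eB a).1 a.2).imp fun _ => Subtype.ext⟩
  let w : A ≃+* A' := .ofBijective (jA.codRestrict A' fun t => (eA _).2 ⟨t, rfl⟩)
    ⟨fun _ _ h => hA (congrArg Subtype.val h), fun a => ((eA a).1 a.2).imp fun _ => Subtype.ext⟩
  have hu : ∀ a : B', jB (u.symm a) = a := fun a => congrArg Subtype.val (u.apply_symm_apply a)
  let i : B' →ₐ[ℂ] A' := ((IsScalarTower.toAlgHom ℂ K M).comp B'.val).codRestrict A' fun a =>
    (eA _).2 ⟨inc (u.symm a), (hinc _).trans (congrArg _ (hu a))⟩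
  have hi : ∀ a, w.symm (i a) = inc (u.symm a) := fun a => w.symm_apply_eq.2
    (Subtype.ext ((hinc _).trans (congrArg _ (hu a))).symm)
  obtain ⟨g, hg, h⟩ := H K M B' A' fB fA i fun _ => rfl
  refine ⟨u.symm g, (map_ne_zero_iff _ u.symm.injective).2 hg,
    fun b h1 h2 L _ _ φ h3 h4 h5 hL => ?_⟩
  have h6 : ∀ c, b (u.symm (algebraMap ℂ B' c)) = c := fun c => h1 c _ (hu _)
  refine h ⟨b.comp u.symm.toRingHom, h6⟩ h2 L ⟨φ.comp w.symm.toRingHom, fun c => ?_⟩ (fun a => ?_)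
    (fun v => ?_) (.inr fun a ha => ?_) hL
  · change φ (w.symm _) = _
    rw [← i.commutes, hi, h3, h6]
  · change φ (w.symm _) = _
    rw [hi, h3]
    rfl
  · obtain ⟨a, s, h7, h8⟩ := h4 v
    refine ⟨w a, w s, ?_, ?_⟩
    · change φ (w.symm _) ≠ _
      rwa [w.symm_apply_apply]
    · change φ (w.symm _) = v * φ (w.symm _)
      rwa [w.symm_apply_apply, w.symm_apply_apply]
  · obtain ⟨n, hn⟩ := h5 _ ha
    refine ⟨n, ?_⟩
    have := Ideal.mem_map_of_mem w hn
    rw [map_pow] at this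
    refine Ideal.map_le_iff_le_comap.2 (Ideal.map_le_iff_le_comap.2 fun t ht => ?_)
      (w.apply_symm_apply a ▸ this)
    have e : w (inc t) = i (u t) := by rw [eq_comm, ← w.symm_apply_eq, hi, u.symm_apply_apply]
    rw [Ideal.mem_comap, Ideal.mem_comap, e]
    refine Ideal.mem_map_of_mem _ ?_
    change b (u.symm (u t)) = 0
    rwa [u.symm_apply_apply]

theorem fib_unit {Y : Scheme.{0}} (y : Spec (CommRingCat.of ℂ) ⟶ Y) {W : Y.Opens}
    (hy : ⊤ ≤ y ⁻¹ᵁ W) (p : Spec (CommRingCat.of ℂ)) (r : Γ(Y, W)) :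
    y p ∈ Y.basicOpen r ↔ (y.appLE W ⊤ hy ≫ (Scheme.ΓSpecIso _).hom).hom r ≠ 0 := by
  have h1 : y p ∈ Y.basicOpen r ↔ p ∈ (Spec _).basicOpen (y.appLE W ⊤ hy r) := by
    rw [Scheme.basicOpen_appLE]
    exact ⟨fun h => ⟨trivial, h⟩, fun h => h.2⟩
  rw [h1, basicOpen_eq_of_affine']
  change _ ∉ PrimeSpectrum.asIdeal p ↔ _
  have := PrimeSpectrum.isPrime p
  rw [Ideal.eq_bot_of_prime (PrimeSpectrum.asIdeal p)]
  rfl

theorem fib_app {S T Z : Scheme.{0}} {a b : S ⟶ T} (h : a = b) {a1 : S ⟶ Z} {a2 : Z ⟶ T}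
    (e : a1 ≫ a2 = a) {U V W} (e1 e2 e3) :
    a2.appLE U V e1 ≫ a1.appLE V W e2 = b.appLE U W e3 := by
  subst h e
  exact Scheme.Hom.appLE_comp_appLE _ _ _ _ _ _ _

variable {X Y : Scheme.{0}} [IsIntegral X] [IsIntegral Y]

theorem fib_kod (H : FibLe) (sX : X ⟶ Spec (CommRingCat.of ℂ)) (sY : Y ⟶ Spec (CommRingCat.of ℂ))
    [Smooth sX] [IsProper sY] (f : X ⟶ Y) (hf : f ≫ sY = sX) [IsProper f]
    [Surjective f] (hc : ∀ y : Y, IsClosed ({y} : Set Y) → _root_.IsConnected (f ⁻¹' {y}))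
    [Algebra ℂ X.functionField] [Algebra ℂ Y.functionField]
    [Algebra Y.functionField X.functionField] [IsScalarTower ℂ Y.functionField X.functionField]
    (hX : Cst sX) (hY : Cst sY)
    (h : ∀ (U : Y.Opens) [Nonempty U] [Nonempty (f ⁻¹ᵁ U)] (s : Γ(Y, U)),
      algebraMap Y.functionField X.functionField (Y.germToFunctionField U s) =
        X.germToFunctionField (f ⁻¹ᵁ U) (f.app U s)) :
    ∃ V : Y.Opens, genericPoint Y ∈ V ∧
      (∀ (T : Scheme.{0}) (y : T ⟶ Y), (∀ p, y p ∈ V) → Smooth (pullback.snd f y)) ∧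
      ∀ y : Spec (CommRingCat.of ℂ) ⟶ Y, y ≫ sY = 𝟙 _ → (∀ p, y p ∈ V) →
        ∃ _ : IsIntegral (pullback f y), kodaira (pullback.snd f y) ≤
          (kod Y.functionField X.functionField).map Cardinal.toENat := by
  obtain ⟨V, hV, hs⟩ := fb_gen sX sY f hf
  obtain ⟨W, hW, hy, hWV⟩ := fb_aff Y hV
  obtain ⟨x, hx⟩ := f.surjective (genericPoint Y)
  obtain ⟨U, hU, hxU, hUW⟩ := fb_aff X (V := f ⁻¹ᵁ W) (x := x) (show f x ∈ W from hx ▸ hy)
  have : Nonempty W := ⟨⟨_, hy⟩⟩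
  have : Nonempty U := ⟨⟨_, hxU⟩⟩
  have : Nonempty (f ⁻¹ᵁ W) := ⟨⟨_, hUW hxU⟩⟩
  obtain ⟨B, eB, _, fB, -⟩ := hY.chart hW
  obtain ⟨A, eA, _, fA, -⟩ := hX.chart hU
  obtain ⟨g, hg, hk⟩ := H.abs (Y.germToFunctionField W).hom (X.germToFunctionField U).hom
    (Y.germToFunctionField_injective W) (X.germToFunctionField_injective U) B A eB eA
    (fB inferInstance) (fA inferInstance) (f.appLE W U hUW).hom fun a =>
      (X.presheaf.germ_res_apply (homOfLE hUW) _ _ _).trans (h W a).symm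
  have ho : IsOpen (f '' U) := by
    have := ((f ⁻¹ᵁ V).ι ≫ f).isOpenMap _ ((f ⁻¹ᵁ V).ι ⁻¹ᵁ U).2
    convert this using 1
    refine subset_antisymm ?_ ?_
    · rintro _ ⟨z, hz, rfl⟩
      exact ⟨⟨z, hWV (hUW hz)⟩, hz, rfl⟩
    · rintro _ ⟨z, hz, rfl⟩
      exact ⟨z.1, hz, rfl⟩
  have hle : ∀ z ∈ Y.basicOpen g, z ∈ W := fun z hz => Y.basicOpen_le g hz
  refine ⟨⟨_, ho⟩ ⊓ Y.basicOpen g, ⟨⟨x, hxU, hx⟩, ?_⟩,
    fun T y hy => fb_snd f hs y fun p => hWV (hle _ (hy p).2), fun y h1 h2 => ?_⟩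
  · refine ((genericPoint_spec Y).mem_open_set_iff (Y.basicOpen g).isOpen).2 ?_
    rw [univ_inter, nonempty_iff_ne_empty]
    exact fun h => hg ((basicOpen_eq_bot_iff g).1 (SetLike.ext' h))
  have := fb_snd f hs y fun p => hWV (hle _ (h2 p).2)
  have := isClosedImmersion_of_comp_eq_id sY y h1
  let p : Spec (CommRingCat.of ℂ) := IsLocalRing.closedPoint ℂ
  have hr : range y = {y p} := by
    refine eq_singleton_iff_unique_mem.2 ⟨⟨p, rfl⟩, ?_⟩
    rintro _ ⟨q, rfl⟩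
    exact congrArg y (Subsingleton.elim _ _)
  have hi : range (pullback.fst f y) = f ⁻¹' {y p} := by rw [Scheme.Pullback.range_fst, hr]
  have hcl : IsClosed {y p} := hr ▸ y.isClosedEmbedding.isClosed_range
  have : ConnectedSpace (pullback f y :) := by
    have h3 := hc _ hcl
    rw [← hi, ← image_univ] at h3
    exact connectedSpace_iff_univ.2 ⟨h3.1.of_image,
      (pullback.fst f y).isClosedEmbedding.isInducing.isPreconnected_image.1 h3.2⟩
  have := fb_integral (pullback.snd f y)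
  refine ⟨this, (kodaira_le _).trans ((OrderHomClass.mono Cardinal.toENat).withBot_map ?_)⟩
  let _ := constAlgebra (pullback.snd f y)
  have hF := cst_const (pullback.snd f y)
  have hyW : ⊤ ≤ y ⁻¹ᵁ W := fun q _ => hle _ (h2 q).2
  let U' := pullback.fst f y ⁻¹ᵁ U
  have hU' : IsAffineOpen U' := hU.preimage _
  have : Nonempty U' := by
    obtain ⟨z, hz, e⟩ := (h2 p).1
    obtain ⟨t, rfl⟩ : z ∈ range (pullback.fst f y) := hi ▸ e
    exact ⟨⟨t, hz⟩⟩
  have := functionField_isFractionRing_of_isAffineOpen _ U' hU'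
  have hj := (pullback f y).germToFunctionField_injective U'
  refine hk (y.appLE W ⊤ hyW ≫ (Scheme.ΓSpecIso _).hom).hom (fun c t ht => ?_)
    ((fib_unit y hyW p g).1 (h2 p).2) _
    (((pullback.fst f y).app U ≫ (pullback f y).germToFunctionField U').hom) (fun a => ?_)
    (fun v => ?_) (fun a ha => ?_) hF.smoothModel
  · rw [Y.germToFunctionField_injective W (ht.trans (hY.germ W c).symm)]
    have e : ((Scheme.ΓSpecIso (.of ℂ)).inv ≫ sY.appLE ⊤ W le_top) ≫ y.appLE W ⊤ hyW ≫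
        (Scheme.ΓSpecIso _).hom = 𝟙 _ := by
      have := fib_app h1 rfl (U := ⊤) (V := W) (W := ⊤) le_top hyW le_top
      rw [Category.assoc, reassoc_of% this]
      simp [Scheme.Hom.appLE]
    exact DFunLike.congr_fun (congrArg CommRingCat.Hom.hom e) c
  · rw [← hF.germ U']
    have e : f.appLE W U hUW ≫ (pullback.fst f y).app U = (y.appLE W ⊤ hyW ≫
        (Scheme.ΓSpecIso _).hom) ≫ (Scheme.ΓSpecIso _).inv ≫ (pullback.snd f y).appLE ⊤ U' le_top := by
      rw [Category.assoc, Iso.hom_inv_id_assoc, Scheme.Hom.app_eq_appLE]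
      exact (fib_app pullback.condition rfl _ _ _).trans
        (Scheme.Hom.appLE_comp_appLE _ _ _ _ _ _ _).symm
    exact congrArg ((pullback f y).germToFunctionField U')
      (DFunLike.congr_fun (congrArg CommRingCat.Hom.hom e) a)
  · obtain ⟨a, s, hs, rfl⟩ := IsFractionRing.div_surjective (A := Γ(pullback f y, U')) v
    obtain ⟨a, rfl⟩ := (pullback.fst f y).app_surjective U hU a
    obtain ⟨s, rfl⟩ := (pullback.fst f y).app_surjective U hU s
    have h3 := IsFractionRing.to_map_ne_zero_of_mem_nonZeroDivisors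
      (K := (pullback f y).functionField) hs
    exact ⟨a, s, h3, (div_mul_cancel₀ _ h3).symm⟩
  · have h3 : (pullback.fst f y).app U a = 0 := hj (ha.trans (map_zero _).symm)
    rw [Ideal.radical_eq_sInf, Ideal.mem_sInf]
    rintro q ⟨h4, h5⟩
    let z := hU.fromSpec ⟨q, h5⟩
    have hz : z ∈ U := hU.range_fromSpec.le (mem_range_self _)
    have h6 : f z = y p := by_contra fun h6 => by
      obtain ⟨r, h7, h8⟩ := hW.exists_basicOpen_le (V := ⟨_, hcl.isOpen_compl⟩) ⟨f z, h6⟩ (hUW hz)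
      refine (fb_mem hU ⟨q, h5⟩ (f.appLE W U hUW r)).1 ?_ (h4 (Ideal.mem_map_of_mem _ ?_))
      · rw [Scheme.basicOpen_appLE]
        exact ⟨hz, h8⟩
      · exact by_contra fun h9 => h7 ((fib_unit y hyW p r).2 h9) rfl
    obtain ⟨t, ht⟩ : z ∈ range (pullback.fst f y) := hi ▸ h6
    by_contra h7
    have h8 : t ∈ pullback.fst f y ⁻¹ᵁ X.basicOpen a :=
      show pullback.fst f y t ∈ X.basicOpen a from ht ▸ (fb_mem hU ⟨q, h5⟩ a).2 h7
    rw [Scheme.preimage_basicOpen, h3, Scheme.basicOpen_zero] at h8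
    exact h8

/-- a general closed fibre is a smooth variety whose Kodaira dimension is at most that of the
geometric generic fibre -/
theorem closed_fibre (H : FibLe) (sX : X ⟶ Spec (CommRingCat.of ℂ))
    (sY : Y ⟶ Spec (CommRingCat.of ℂ)) [Smooth sX] [IsProper sX] [Smooth sY] [IsProper sY]
    (f : X ⟶ Y) (hf : f ≫ sY = sX) [Surjective f]
    (hc : ∀ y : Y, IsClosed ({y} : Set Y) → _root_.IsConnected (f ⁻¹' {y})) :
    ∃ V : Y.Opens, (V : Set Y).Nonempty ∧ ∀ y : Spec (CommRingCat.of ℂ) ⟶ Y, y ≫ sY = 𝟙 _ →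
      (∀ p, y p ∈ V) → ∃ _ : IsIntegral (pullback f y), Smooth (pullback.snd f y) ∧
        ∀ _ : IsIntegral (pullback f (geomPoint Y)),
          kodaira (pullback.snd f y) ≤ kodaira (pullback.snd f (geomPoint Y)) := by
  let _ := constAlgebra sX
  let _ := constAlgebra sY
  have : IsProper (f ≫ sY) := hf ▸ inferInstance
  have : IsProper f := .of_comp f sY
  obtain ⟨φ, h1, h2⟩ := exists_fld f
  let _ := φ.hom.toAlgebra
  have := (cst_const sX).tower (cst_const sY) hf h1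
  have h3 := ac_scheme ℂ f sY sX (fun y hy => (hc y hy).2) h2
  have : CharZero Y.functionField :=
    charZero_of_injective_algebraMap (algebraMap ℂ Y.functionField).injective
  obtain ⟨_, ψ, h4, h5⟩ := ggf h1 h3 (AlgebraicClosure Y.functionField) (geomPoint Y) rfl
  let _ := constAlgebra (pullback.snd f (geomPoint Y))
  let _ := ψ.toAlgebra
  let _ := (ψ.comp φ.hom).toAlgebra
  have : IsScalarTower Y.functionField X.functionField (pullback f (geomPoint Y)).functionField :=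
    .of_algebraMap_eq' rfl
  have : IsScalarTower Y.functionField (AlgebraicClosure Y.functionField)
      (pullback f (geomPoint Y)).functionField := .of_algebraMap_eq' h4
  have : Algebra.IsAlgebraic X.functionField (pullback f (geomPoint Y)).functionField :=
    ⟨fun n => (h5 (algebraicClosure X.functionField _).toSubring
      (fun a => IntermediateField.algebraMap_mem _ a) fun c => mem_algebraicClosure_iff.2
        (((Algebra.IsAlgebraic.isAlgebraic (R := Y.functionField) c).algebraMap).tower_top _)).ge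
          (Subring.mem_top n) |> mem_algebraicClosure_iff.1⟩
  obtain ⟨n, x, hx⟩ := exists_basis_of_fg ((cst_const sX).generic (cst_const sY).fg h2).fg
  obtain ⟨V, hV, hs, h⟩ := fib_kod H sX sY f hf hc (cst_const sX) (cst_const sY) h2
  have := hs _ (geomPoint Y) fun p => by
    have : geomPoint Y p ∈ range (Y.fromSpecStalk (genericPoint Y)) := ⟨_, rfl⟩
    rw [Scheme.range_fromSpecStalk] at this
    exact this.mem_open V.2 hV
  refine ⟨V, ⟨_, hV⟩, fun y h6 h7 => ?_⟩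
  obtain ⟨_, h8⟩ := h y h6 h7
  exact ⟨‹_›, hs _ y h7, fun _ => h8.trans (((OrderHomClass.mono Cardinal.toENat).withBot_map
    (kod_le_const hx)).trans (le_kodaira _))⟩

end

end Pool.Agent.Lib.MP_5c318e_ag.Sch
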