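import Pool.Agent.Lib.MP_5c318e_ag.Sch.GenSm

/-! Smooth algebras over a field are locally domains; generic smoothness at a prime. -/

set_option autoImplicit false

namespace Pool.Agent.Lib.MP_5c318e_ag.Sch

open Algebra TensorProduct
open scoped nonZeroDivisors

/-- zero divisors of an étale algebra over a normal domain are separated by an idempotent -/
theorem fa_split (R S : Type) [CommRing R] [IsDomain R] [IsIntegrallyClosed R] [CommRing S]
    [Algebra R S] [Etale R S] {a b : S} (h : a * b = 0) : ∃ t : S, t * b = 0 ∧ (1 - t) * a = 0 := by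
  let K := FractionRing R
  have : Module.Finite K (K ⊗[R] S) := FormallyUnramified.finite_of_free K _
  have : IsReduced (K ⊗[R] S) := FormallyUnramified.isReduced_of_field K _
  have : IsArtinianRing (K ⊗[R] S) := .of_finite K _
  let e := (Algebra.TensorProduct.comm R K S).toRingEquiv
  have : IsReduced (S ⊗[R] K) := isReduced_of_injective e.symm e.symm.injective
  have : IsArtinianRing (S ⊗[R] K) := e.isArtinianRing
  have hi : Function.Injective (algebraMap S (S ⊗[R] K)) :=
    Algebra.TensorProduct.includeLeft_injective (S := S) (IsFractionRing.injective R K)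
  set j := algebraMap S (S ⊗[R] K)
  obtain ⟨n, c, hc⟩ := IsArtinian.exists_pow_succ_smul_dvd (j a) (1 : S ⊗[R] K)
  simp only [smul_eq_mul] at hc
  have h1 : j a * (1 - j a * c) = 0 := by
    refine IsNilpotent.eq_zero ⟨n + 1, ?_⟩
    have : j a ^ (n + 1) * (1 - j a * c) = 0 := by
      rw [Nat.succ_eq_add_one] at hc
      linear_combination (-j a) * hc
    rw [mul_pow, pow_succ (1 - j a * c), mul_comm _ (1 - j a * c), ← mul_assoc, this, zero_mul]
  have h2 : IsIntegral S (j a * c) := by
    refine ⟨Polynomial.X ^ 2 - Polynomial.X, Polynomial.monic_X_pow_sub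
      (Polynomial.degree_X_le.trans_lt (by norm_num)), ?_⟩
    simp only [Polynomial.eval₂_sub, Polynomial.eval₂_pow, Polynomial.eval₂_X]
    linear_combination (-c) * h1
  obtain ⟨u, hu⟩ := (TensorProduct.toIntegralClosure_bijective_of_smooth (R := R) (S := S)
    (B := K)).2 ⟨_, h2⟩
  have e1 : j a * c = Algebra.TensorProduct.map (.id S S) (integralClosure R K).val u :=
    (congrArg Subtype.val hu).symm
  have h3 : ∃ t, j t = Algebra.TensorProduct.map (.id S S) (integralClosure R K).val u := by
    clear hu e1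
    induction u using TensorProduct.induction_on with
    | zero => exact ⟨0, by simp⟩
    | add x y hx hy =>
      obtain ⟨a, ha⟩ := hx
      obtain ⟨b, hb⟩ := hy
      exact ⟨a + b, by simp only [map_add, ha, hb]⟩
    | tmul s y =>
      obtain ⟨r, hr⟩ := IsIntegrallyClosed.isIntegral_iff.1 y.2
      refine ⟨r • s, ?_⟩
      change (r • s) ⊗ₜ[R] (1 : K) = s ⊗ₜ[R] (y : K)
      rw [← hr, smul_tmul, Algebra.algebraMap_eq_smul_one]
  obtain ⟨t, ht⟩ := h3
  rw [← e1] at ht
  have h4 : j a * j b = 0 := by rw [← map_mul, h, map_zero]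
  refine ⟨t, hi ?_, hi ?_⟩
  · rw [map_mul, ht, map_zero]
    linear_combination c * h4
  · rw [map_mul, map_sub, map_one, ht, map_zero]
    linear_combination h1

/-- near every prime the ring becomes a domain -/
theorem fa_dom {S : Type} [CommRing S] [IsNoetherianRing S]
    (H : ∀ a b : S, a * b = 0 → ∃ t : S, t * b = 0 ∧ (1 - t) * a = 0) (q : Ideal S) [hq : q.IsPrime] :
    ∃ s, s ∉ q ∧ ∀ (T : Type) [CommRing T] [Algebra S T] [IsLocalization.Away s T], IsDomain T := by
  let p := RingHom.ker (algebraMap S (Localization.AtPrime q))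
  have hp : ∀ a, a ∈ p ↔ ∃ m : q.primeCompl, m * a = 0 := fun a =>
    IsLocalization.map_eq_zero_iff q.primeCompl _ a
  obtain ⟨F, hF⟩ := IsNoetherian.noetherian p
  choose m hm using fun a : F => (hp a).1 (hF ▸ Ideal.subset_span a.2)
  let s : q.primeCompl := ∏ a, m a
  have hs : ∀ a ∈ p, (s : S) * a = 0 := fun a ha => by
    rw [← hF] at ha
    refine Submodule.span_induction (fun x hx => ?_) (mul_zero _)
      (fun _ _ _ _ h1 h2 => by rw [mul_add, h1, h2, add_zero])
      (fun c _ _ h => by rw [smul_eq_mul, mul_left_comm, h, mul_zero]) ha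
    obtain ⟨c, hc⟩ := Finset.dvd_prod_of_mem m (Finset.mem_univ ⟨x, hx⟩)
    rw [show s = _ from hc, Submonoid.coe_mul, mul_right_comm, hm ⟨x, hx⟩, zero_mul]
  refine ⟨s, s.2, fun T _ _ _ => ?_⟩
  have h0 : ∀ a, algebraMap S T a = 0 ↔ a ∈ p := fun a => by
    rw [IsLocalization.map_eq_zero_iff (.powers (s : S)), hp]
    exact ⟨fun ⟨⟨_, n, rfl⟩, h⟩ => ⟨s ^ n, h⟩, fun h => ⟨⟨s, 1, pow_one _⟩, hs a ((hp a).2 h)⟩⟩
  have : Nontrivial T := ⟨1, 0, fun h => by
    obtain ⟨m, hm⟩ := (hp 1).1 ((h0 1).1 ((map_one _).trans h))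
    exact m.2 ((mul_one (m : S)).symm.trans hm ▸ q.zero_mem)⟩
  have : NoZeroDivisors T := ⟨fun {x y} h => by
    obtain ⟨⟨a, u⟩, e⟩ := IsLocalization.surj (.powers (s : S)) x
    obtain ⟨⟨b, v⟩, e'⟩ := IsLocalization.surj (.powers (s : S)) y
    simp only at e e'
    obtain ⟨m, hm⟩ := (hp (a * b)).1 ((h0 _).1 (by
      rw [map_mul, ← e, ← e', mul_mul_mul_comm, h, zero_mul]))
    obtain ⟨t, h1, h2⟩ := H _ _ ((mul_assoc _ _ _).trans hm)
    by_cases ht : t ∈ q
    · have h3 : 1 - t ∈ q.primeCompl := fun h => hq.1 ((Ideal.eq_top_iff_one q).2 (by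
        simpa using add_mem h ht))
      have := (h0 a).2 ((hp a).2 ⟨⟨_, h3⟩ * m, (mul_assoc _ _ _).trans h2⟩)
      exact .inl ((IsLocalization.map_units T u).mul_left_eq_zero.1 (e.trans this))
    · have := (h0 b).2 ((hp b).2 ⟨⟨t, ht⟩, h1⟩)
      exact .inr ((IsLocalization.map_units T v).mul_left_eq_zero.1 (e'.trans this))⟩
  exact NoZeroDivisors.to_isDomain T

/-- a smooth algebra over a field is a domain near every prime -/
theorem fa_smooth (k : Type) {A : Type} [Field k] [CommRing A] [Algebra k A] [Smooth k A]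
    (q : Ideal A) [q.IsPrime] :
    ∃ s, s ∉ q ∧ ∀ (T : Type) [CommRing T] [Algebra A T] [IsLocalization.Away s T], IsDomain T := by
  obtain ⟨f, hf, n, _, _, _⟩ := IsSmoothAt.exists_isStandardEtale_mvPolynomial (R := k) (p := q)
  let S := Localization.Away f
  have : IsNoetherianRing A := Algebra.FiniteType.isNoetherianRing k A
  have : IsNoetherianRing S := IsLocalization.isNoetherianRing (.powers f) S this
  have hd : Disjoint (Submonoid.powers f : Set A) q := (Ideal.disjoint_powers_iff_notMem f
    (Ideal.IsPrime.isRadical ‹_›)).2 hf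
  have := IsLocalization.isPrime_of_isPrime_disjoint (.powers f) S q ‹_› hd
  obtain ⟨s, hs, H⟩ := fa_dom (fun a b => fa_split (MvPolynomial (Fin n) k) S)
    (q.map (algebraMap A S))
  obtain ⟨⟨a, u⟩, e⟩ := IsLocalization.surj (.powers f) s
  simp only at e
  have hu := IsLocalization.map_units S u
  have ha : a ∉ q := fun h => hs ((Ideal.mul_unit_mem_iff_mem _ hu).1
    (e ▸ Ideal.mem_map_of_mem _ h))
  refine ⟨f * a, fun h => (Ideal.IsPrime.mem_or_mem ‹_› h).elim hf ha, fun T _ _ _ => ?_⟩
  let T' := Localization.Away (algebraMap A S a)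
  have : IsLocalization.Away s T' :=
    IsLocalization.Away.of_associated (r := algebraMap A S a) (e ▸ (associated_mul_unit_left _ _ hu))
  have := H T'
  have : IsLocalization.Away (f * a) T' := IsLocalization.Away.mul' S T' f a
  exact (IsLocalization.algEquiv (.powers (f * a)) T T').toMulEquiv.isDomain

/-- generic smoothness at a prime over the generic point -/
theorem fa_gen (k B : Type) {A : Type} [Field k] [CharZero k] [CommRing B] [IsDomain B] [CommRing A]
    [Algebra k B] [Algebra k A] [Algebra B A] [IsScalarTower k B A] [FiniteType k B] [Smooth k A]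
    (q : Ideal A) [q.IsPrime] (h : ∀ b : B, algebraMap B A b ∈ q → b = 0) :
    FormallySmooth B (Localization.AtPrime q) := by
  let S := Localization.AtPrime q
  let K := FractionRing B
  have hu : ∀ y : B⁰, IsUnit (algebraMap B S y) := fun y => by
    rw [IsScalarTower.algebraMap_apply B A S]
    exact IsLocalization.map_units S (⟨_, fun hy => nonZeroDivisors.coe_ne_zero y (h _ hy)⟩ :
      q.primeCompl)
  let _ : Algebra K S := (IsLocalization.lift hu).toAlgebra
  have : IsScalarTower B K S := .of_algebraMap_eq fun b => (IsLocalization.lift_eq hu b).symm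
  have : IsScalarTower k K S := .of_algebraMap_eq fun c => by
    rw [IsScalarTower.algebraMap_apply k B K, ← IsScalarTower.algebraMap_apply,
      ← IsScalarTower.algebraMap_apply]
  have : EssFiniteType k K := .comp k B K
  have : EssFiniteType k S := .comp k A S
  have : EssFiniteType K S := .of_comp k K S
  have : FormallySmooth A S := .of_isLocalization q.primeCompl
  have : FormallySmooth k S := .comp k A S
  have := gs_local k K S
  have : FormallySmooth B K := .of_isLocalization B⁰
  exact .comp B K S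

end Pool.Agent.Lib.MP_5c318e_ag.Sch
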