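import Pool.Agent.Lib.MP_5c318e_ag.Sch.FibA
import Pool.Agent.Lib.MP_5c318e_ag.Sch.Loc

/-! Connected smooth schemes are integral; generic smoothness of a proper morphism. -/

set_option autoImplicit false

namespace Pool.Agent.Lib.MP_5c318e_ag.Sch

open AlgebraicGeometry CategoryTheory Limits Set

noncomputable section

theorem fb_mem {X : Scheme.{0}} {U : X.Opens} (hU : IsAffineOpen U) (p : PrimeSpectrum Γ(X, U))
    (r : Γ(X, U)) : hU.fromSpec p ∈ X.basicOpen r ↔ r ∉ p.asIdeal := by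
  exact SetLike.ext_iff.1 (hU.fromSpec_preimage_basicOpen r) p

theorem fb_mem' {X : Scheme.{0}} {U : X.Opens} (hU : IsAffineOpen U) {x : X} (hx : x ∈ U)
    (r : Γ(X, U)) : x ∈ X.basicOpen r ↔ r ∉ (hU.primeIdealOf ⟨x, hx⟩).asIdeal := by
  rw [← fb_mem hU, hU.fromSpec_primeIdealOf]

theorem fb_aff (X : Scheme.{0}) {V : X.Opens} {x : X} (hx : x ∈ V) :
    ∃ U, IsAffineOpen U ∧ x ∈ U ∧ U ≤ V := by
  obtain ⟨_, ⟨U, hU, rfl⟩, h1, h2⟩ := X.isBasis_affineOpens.exists_subset_of_mem_open hx V.2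
  exact ⟨U, hU, h1, h2⟩

/-- a connected scheme that is smooth over a field is integral -/
theorem fb_integral {k : Type} [Field k] {F : Scheme.{0}} (s : F ⟶ Spec (CommRingCat.of k))
    [Smooth s] [ConnectedSpace F] : IsIntegral F := by
  have H : ∀ x : F, ∃ (R : CommRingCat.{0}) (g : Spec R ⟶ F) (_ : IsOpenImmersion g),
      IsDomain R ∧ x ∈ range g := fun x => by
    obtain ⟨U, hU, hx, -⟩ := fb_aff F (V := ⊤) (x := x) trivial
    let _ := ((Scheme.ΓSpecIso (.of k)).inv ≫ s.appLE ⊤ U le_top).hom.toAlgebra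
    have : Algebra.Smooth k Γ(F, U) := ac_chart k s hU
    obtain ⟨r, hr, h⟩ := fa_smooth k (hU.primeIdealOf ⟨x, hx⟩).asIdeal
    have := hU.isLocalization_basicOpen r
    refine ⟨_, (hU.basicOpen r).fromSpec, inferInstance, h _, ?_⟩
    rw [IsAffineOpen.range_fromSpec]
    exact (fb_mem' hU hx r).2 hr
  have (x : F) : _root_.IsReduced (F.presheaf.stalk x) := by
    obtain ⟨R, g, _, _, y, rfl⟩ := H x
    exact isReduced_of_injective _ (asIso <| g.stalkMap y).commRingCatIsoToRingEquiv.injective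
  have := isReduced_of_isReduced_stalk F
  have key : ∀ U : Set F, IsOpen U → U.Nonempty → Dense U := fun U hU hn => by
    refine dense_iff_closure_eq.2 (IsClopen.eq_univ ⟨isClosed_closure, ?_⟩ hn.closure)
    refine isOpen_iff_forall_mem_open.2 fun x hx => ?_
    obtain ⟨R, g, _, _, hg⟩ := H x
    have h1 := g.isOpenEmbedding.isOpen_range
    have h2 : IsPreirreducible (range g) := by
      rw [← image_univ]
      exact (IrreducibleSpace.isIrreducible_univ _).2.image _ g.continuous.continuousOn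
    exact ⟨_, (subset_closure_inter_of_isPreirreducible_of_isOpen h2 hU
      (mem_closure_iff.1 hx _ h1 hg)).trans (closure_mono inter_subset_right), h1, hg⟩
  have : IrreducibleSpace F :=
    { isPreirreducible_univ := fun U V hU hV ⟨x, _, hx⟩ ⟨y, _, hy⟩ => by
        rw [univ_inter]
        exact (key V hV ⟨y, hy⟩).inter_open_nonempty U hU ⟨x, hx⟩
      toNonempty := inferInstance }
  exact isIntegral_of_irreducibleSpace_of_isReduced F

/-- generic smoothness -/
theorem fb_gen {k : Type} [Field k] [CharZero k] {X Y : Scheme.{0}} [IsIntegral Y]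
    (sX : X ⟶ Spec (CommRingCat.of k)) (sY : Y ⟶ Spec (CommRingCat.of k)) [Smooth sX]
    [LocallyOfFiniteType sY] (f : X ⟶ Y) (hf : f ≫ sY = sX) [IsProper f] :
    ∃ V : Y.Opens, genericPoint Y ∈ V ∧ Smooth ((f ⁻¹ᵁ V).ι ≫ f) := by
  have := LocallyOfFiniteType.isLocallyNoetherian sY
  have h1 : ∀ x : X, f x = genericPoint Y → x ∈ f.smoothLocus := fun x hx => by
    obtain ⟨W, hW, hy, -⟩ := fb_aff Y (V := ⊤) (x := f x) trivial
    obtain ⟨U, hU, hxU, hUW⟩ := fb_aff X (V := f ⁻¹ᵁ W) (x := x) hy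
    rw [Scheme.Hom.mem_smoothLocus, formallySmooth_stalkMap_iff W hW U hU hUW hxU]
    let _ := ((Scheme.ΓSpecIso (.of k)).inv ≫ sX.appLE ⊤ U le_top).hom.toAlgebra
    let _ := ((Scheme.ΓSpecIso (.of k)).inv ≫ sY.appLE ⊤ W le_top).hom.toAlgebra
    let _ := (f.appLE W U hUW).hom.toAlgebra
    have : Nonempty W := ⟨⟨_, hy⟩⟩
    have : Algebra.Smooth k Γ(X, U) := ac_chart k sX hU
    have : Algebra.FiniteType k Γ(Y, W) := RingHom.finiteType_respectsIso.2 _
      (Scheme.ΓSpecIso (.of k)).symm.commRingCatIsoToRingEquiv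
      (sY.finiteType_appLE (isAffineOpen_top _) hW le_top)
    have : IsScalarTower k Γ(Y, W) Γ(X, U) := .of_algebraMap_eq' (by
      subst hf
      exact congrArg (fun t => ((Scheme.ΓSpecIso (.of k)).inv ≫ t).hom)
        (Scheme.Hom.appLE_comp_appLE f sY ⊤ W U le_top hUW).symm)
    refine fa_gen k Γ(Y, W) (hU.primeIdealOf ⟨x, hxU⟩).asIdeal fun b hb => by_contra fun h0 => ?_
    refine (fb_mem' hU hxU (f.appLE W U hUW b)).1 ?_ hb
    rw [Scheme.basicOpen_appLE]
    refine ⟨hxU, ?_⟩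
    change f x ∈ Y.basicOpen b
    rw [hx]
    refine ((genericPoint_spec Y).mem_open_set_iff (Y.basicOpen b).isOpen).2 ?_
    rw [univ_inter, nonempty_iff_ne_empty]
    exact fun h => h0 ((basicOpen_eq_bot_iff b).1 (SetLike.ext' h))
  let V : Y.Opens := ⟨(f '' (f.smoothLocus : Set X)ᶜ)ᶜ,
    (f.isClosedMap _ f.smoothLocus.2.isClosed_compl).isOpen_compl⟩
  refine ⟨V, fun ⟨x, h2, h3⟩ => h2 (h1 x h3), ?_⟩
  rw [← Scheme.Hom.smoothLocus_eq_top_iff, ← Scheme.Hom.preimage_smoothLocus_eq, eq_top_iff]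
  exact fun x _ => by_contra fun h => x.2 ⟨_, h, rfl⟩

theorem fb_snd {X Y T : Scheme.{0}} (f : X ⟶ Y) {V : Y.Opens} (h : Smooth ((f ⁻¹ᵁ V).ι ≫ f))
    (y : T ⟶ Y) (hy : ∀ p, y p ∈ V) : Smooth (pullback.snd f y) := by
  have h1 : range (pullback.fst f y) ⊆ range (f ⁻¹ᵁ V).ι := by
    rw [Scheme.Pullback.range_fst, Scheme.Opens.range_ι]
    rintro x ⟨p, hp⟩
    exact show f x ∈ V from hp ▸ hy p
  have p1 : IsPullback (IsOpenImmersion.lift _ _ h1) (𝟙 _) (f ⁻¹ᵁ V).ι (pullback.fst f y) :=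
    .of_vert_isIso_mono ⟨by simp⟩
  have p2 := p1.paste_vert (IsPullback.of_hasPullback f y)
  rw [Category.id_comp] at p2
  exact MorphismProperty.of_isPullback p2 h

end

end Pool.Agent.Lib.MP_5c318e_ag.Sch
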