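import Pool.Agent.Lib.MP_5c318e_ag.Sch.SchDefs
import Pool.Agent.Lib.MP_5c318e_ag.S.APlu

/-! Sections of powers of the canonical bundle in terms of coefficients in a frame. -/

set_option autoImplicit false

namespace Pool.Agent.Lib.MP_5c318e_ag.Sch

open Set TensorProduct

noncomputable section

variable {k F : Type} [Field k] [Field F] [Algebra k F]
  {V : Type} [AddCommGroup V] [Module F V] {Z : Type}

/-- coefficients of the local sections of the `m`-th power -/
def coefs (c : V →ₗ[F] F) (O : Subring F) (G : Set V) (m : ℕ) : AddSubgroup F :=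
  AddSubgroup.closure {t | ∃ a ∈ O, ∃ v : Fin m → V, (∀ i, v i ∈ G) ∧ t = a * ∏ i, c (v i)}

/-- the coefficient of an element of the tensor power -/
def cpow (c : V →ₗ[F] F) (m : ℕ) : (⨂[F]^m V) →ₗ[F] F :=
  PiTensorProduct.lift ((MultilinearMap.mkPiAlgebra F (Fin m) F).compLinearMap fun _ => c)

theorem cpow_tprod (c : V →ₗ[F] F) {m : ℕ} (v : Fin m → V) :
    cpow c m (PiTensorProduct.tprod F v) = ∏ i, c (v i) := by
  simp [cpow]

theorem eq_cpow_smul {c : V →ₗ[F] F} {v0 : V} (h : ∀ v, v = c v • v0) {m : ℕ} (w : ⨂[F]^m V) :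
    w = cpow c m w • PiTensorProduct.tprod F fun _ => v0 := by
  induction w using PiTensorProduct.induction_on with
  | smul_tprod r v =>
    rw [map_smul, cpow_tprod, smul_assoc, ← MultilinearMap.map_smul_univ]
    congr 2
    exact funext fun i => h _
  | add x y hx hy =>
    rw [map_add, add_smul, ← hx, ← hy]

theorem cpow_injective {c : V →ₗ[F] F} {v0 : V} (h : ∀ v, v = c v • v0) (m : ℕ) :
    Function.Injective (cpow c m) := fun x y e => by
  rw [eq_cpow_smul h x, e, ← eq_cpow_smul h y]

theorem cpow_surjective {c : V →ₗ[F] F} {v0 : V} (h0 : c v0 = 1) (m : ℕ) :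
    Function.Surjective (cpow c m) := fun a =>
  ⟨a • PiTensorProduct.tprod F fun _ => v0, by simp [cpow_tprod, h0]⟩

theorem mem_sections_iff {c : V →ₗ[F] F} {v0 : V} (h : ∀ v, v = c v • v0) (O : Z → Subring F)
    (G : Z → Set V) {m : ℕ} (w : ⨂[F]^m V) :
    w ∈ sections F O G m ↔ ∀ x, cpow c m w ∈ coefs c (O x) (G x) m := by
  refine forall_congr' fun x => ?_
  have e : coefs c (O x) (G x) m = (AddSubgroup.closure {t | ∃ a ∈ O x, ∃ v : Fin m → V,
      (∀ i, v i ∈ G x) ∧ t = a • PiTensorProduct.tprod F v}).map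
        (cpow c m).toAddMonoidHom := by
    rw [AddMonoidHom.map_closure, coefs]
    congr 1
    ext t
    constructor
    · rintro ⟨a, ha, v, hv, rfl⟩
      exact ⟨_, ⟨a, ha, v, hv, rfl⟩, by simp [cpow_tprod]⟩
    · rintro ⟨_, ⟨a, ha, v, hv, rfl⟩, rfl⟩
      exact ⟨a, ha, v, hv, by simp [cpow_tprod]⟩
  rw [e]
  exact (AddSubgroup.mem_map_iff_mem (f := (cpow c m).toAddMonoidHom) (cpow_injective h m)).symm

theorem iitakaDim_eq {c : V →ₗ[F] F} {v0 : V} (h0 : c v0 = 1) (h : ∀ v, v = c v • v0)
    (O : Z → Subring F) (G : Z → Set V) :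
    iitakaDim k F O G = ⨆ (m : ℕ) (_ : 0 < m) (φ : F) (_ : ∀ x, φ ∈ coefs c (O x) (G x) m)
      (_ : φ ≠ 0), (((Algebra.trdeg k (IntermediateField.adjoin k
        {g : F | ∀ x, g * φ ∈ coefs c (O x) (G x) m})).toENat : ℕ∞) : WithBot ℕ∞) := by
  unfold iitakaDim
  refine iSup_congr fun m => iSup_congr fun _ => ?_
  refine (cpow_surjective h0 m).iSup_congr _ fun w => ?_
  have e : {g : F | g • w ∈ sections F O G m} =
      {g : F | ∀ x, g * cpow c m w ∈ coefs c (O x) (G x) m} := by
    ext g
    rw [mem_ofPred_eq, mem_sections_iff h, map_smul, smul_eq_mul, mem_ofPred_eq]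
  rw [e]
  exact iSup_congr_Prop (mem_sections_iff h O G w).symm fun _ =>
    iSup_congr_Prop (map_ne_zero_iff _ (cpow_injective h m)) fun _ => rfl

theorem exists_det {n : ℕ} (b : Module.Basis (Fin n) F V) :
    ∃ (c : (⋀[F]^n V) →ₗ[F] F) (v0 : ⋀[F]^n V), c v0 = 1 ∧ (∀ v, v = c v • v0) ∧
      ∀ v, c (exteriorPower.ιMulti F n v) = b.det v := by
  refine ⟨exteriorPower.alternatingMapLinearEquiv b.det, exteriorPower.ιMulti F n b,
    by simp [Module.Basis.det_self],
    fun w => ?_, fun v => by simp⟩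
  have : (LinearMap.id : (⋀[F]^n V) →ₗ[F] _) = (LinearMap.toSpanSingleton F _
      (exteriorPower.ιMulti F n b)).comp (exteriorPower.alternatingMapLinearEquiv b.det) := by
    refine exteriorPower.linearMap_ext (AlternatingMap.ext fun v => ?_)
    rw [← sub_eq_zero, ← Module.forall_dual_apply_eq_zero_iff F]
    intro l
    have := DFunLike.congr_fun (AlternatingMap.eq_smul_basis_det b
      (l.compAlternatingMap (exteriorPower.ιMulti F n))) v
    simp only [LinearMap.compAlternatingMap_apply, AlternatingMap.smul_apply, smul_eq_mul] at this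
    simp [this, mul_comm]
  exact DFunLike.congr_fun this w

variable [CharZero k] {n : ℕ} {z : Fin n → F} {d : Fin n → Derivation k F F}

theorem exists_basis (hd : Dual k z d) : ∃ b : Module.Basis (Fin n) F Ω[F⁄k],
    ∀ g j, b.repr (KaehlerDifferential.D k F g) j = d j g := by
  have h1 : ∀ g, KaehlerDifferential.D k F g =
      ∑ j, d j g • KaehlerDifferential.D k F (z j) := fun g => by
    have hs : ∀ (e : Fin n → Derivation k F Ω[F⁄k]) (x : F), (∑ j, e j) x = ∑ j, e j x :=
      fun e x => (congrFun (map_sum (Derivation.coeFnAddMonoidHom (R := k) (A := F)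
        (M := Ω[F⁄k])) e Finset.univ) x).trans (Finset.sum_apply x _ _)
    have := der_ext_basis hd.basis (KaehlerDifferential.D k F)
      (∑ j, (LinearMap.toSpanSingleton F _ (KaehlerDifferential.D k F (z j))).compDer (d j))
      fun i => by
        rw [hs]
        simp [hd.dual]
    conv_lhs => rw [this, hs]
    simp
  have h2 : LinearIndependent F fun j => KaehlerDifferential.D k F (z j) := by
    rw [Fintype.linearIndependent_iff]
    intro a ha i
    have := congrArg (d i).liftKaehlerDifferential ha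
    simpa [hd.dual] using this
  have h3 : ⊤ ≤ Submodule.span F (range fun j => KaehlerDifferential.D k F (z j)) := by
    rw [← KaehlerDifferential.span_range_derivation, Submodule.span_le]
    rintro _ ⟨g, rfl⟩
    rw [h1]
    exact Submodule.sum_mem _ fun j _ => Submodule.smul_mem _ _ (Submodule.subset_span ⟨j, rfl⟩)
  refine ⟨Module.Basis.mk h2 h3, fun g j => ?_⟩
  have h4 : KaehlerDifferential.D k F g = ∑ j, d j g • Module.Basis.mk h2 h3 j := by
    simp only [Module.Basis.mk_apply]
    exact h1 g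
  rw [h4, Module.Basis.repr_sum_self]

/-- coefficients of the local `m`-canonical forms over the ring `O` -/
def cf (d : Fin n → Derivation k F F) (O : Subring F) (m : ℕ) : AddSubgroup F :=
  AddSubgroup.closure
    {t | ∃ a ∈ O, ∃ g : Fin m → Fin n → F, (∀ i j, g i j ∈ O) ∧ t = a * ∏ i, Jac d (g i)}

theorem detDim_eq (hd : Dual k z d) (O : Z → Subring F) :
    (detDim k F n O fun x => KaehlerDifferential.D k F '' O x) =
      ⨆ (m : ℕ) (_ : 0 < m) (φ : F) (_ : ∀ x, φ ∈ cf d (O x) m) (_ : φ ≠ 0),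
        (((Algebra.trdeg k (IntermediateField.adjoin k
          {g : F | ∀ x, g * φ ∈ cf d (O x) m})).toENat : ℕ∞) : WithBot ℕ∞) := by
  obtain ⟨b, hb⟩ := exists_basis hd
  obtain ⟨c, v0, h0, h1, h2⟩ := exists_det b
  have h3 : ∀ g : Fin n → F, c (exteriorPower.ιMulti F n
      fun j => KaehlerDifferential.D k F (g j)) = Jac d g := fun g => by
    rw [h2, Module.Basis.det_apply, Jac, ← Matrix.det_transpose]
    congr 1
    ext i j
    simp [Module.Basis.toMatrix_apply, hb]
  have e : ∀ (S : Subring F) m,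
      coefs c S (wedges F n (KaehlerDifferential.D k F '' S)) m = cf d S m := fun S m => by
    unfold coefs cf
    congr 1
    ext t
    refine exists_congr fun a => and_congr_right fun _ => ⟨?_, ?_⟩
    · rintro ⟨v, hv, rfl⟩
      choose u hu e using hv
      choose g hg e' using hu
      refine ⟨g, hg, ?_⟩
      congr 1
      refine Finset.prod_congr rfl fun i _ => ?_
      rw [e, ← h3]
      congr 2
      exact funext fun j => (e' i j).symm
    · rintro ⟨g, hg, rfl⟩
      exact ⟨fun i => exteriorPower.ιMulti F n fun j => KaehlerDifferential.D k F (g i j),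
        fun i => ⟨_, fun j => ⟨_, hg i j, rfl⟩, rfl⟩, by simp only [h3]⟩
  rw [detDim, iitakaDim_eq h0 h1]
  have e' : (fun x m => coefs c (O x) (wedges F n (KaehlerDifferential.D k F '' O x)) m) =
      fun x m => cf d (O x) m := funext fun x => funext fun m => e _ _
  exact congrArg (fun P : Z → ℕ → AddSubgroup F => ⨆ (m : ℕ) (_ : 0 < m) (φ : F)
    (_ : ∀ x, φ ∈ P x m) (_ : φ ≠ 0), (((Algebra.trdeg k (IntermediateField.adjoin k
      {g : F | ∀ x, g * φ ∈ P x m})).toENat : ℕ∞) : WithBot ℕ∞)) e'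

end

end Pool.Agent.Lib.MP_5c318e_ag.Sch
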