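import Pool.Agent.Lib.MP_5c318e_ag.Sch.SchDefs
import Pool.Agent.Lib.MP_5c318e_ag.Sch.ComLoc

/-! A field of definition of the function field is a field of definition of the birational
class. -/

set_option autoImplicit false

namespace Pool.Agent.Lib.MP_5c318e_ag.Sch

open AlgebraicGeometry CategoryTheory Limits IntermediateField TensorProduct

theorem vb_dom {R D : Type} [CommRing R] [CommRing D] (f : R →+* D) (h : Function.Injective f) :
    IsDominant (Spec.map (CommRingCat.ofHom f)) :=
  ⟨(PrimeSpectrum.denseRange_comap_iff_ker_le_nilRadical f).2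
    ((RingHom.injective_iff_ker_eq_bot f).1 h ▸ bot_le)⟩

theorem vb_imm {E R D : Type} [CommRing E] [CommRing R] [CommRing D] (i : E →+* R) (f : R →+* D)
    (h : Function.Injective f) (ho : IsOpenImmersion (Spec.map (CommRingCat.ofHom f)))
    (j : E →+* D) (e : f.comp i = j) :
    Scheme.BirationalOver (Spec.map (CommRingCat.ofHom j)) (Spec.map (CommRingCat.ofHom i)) := by
  have := vb_dom f h
  refine Scheme.Hom.birationalOver (Spec.map (CommRingCat.ofHom f)) _ _ ?_
  rw [← Spec.map_comp, ← CommRingCat.ofHom_comp, e]

section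

variable {E N : Type} [Field E] [Field N] [Algebra E N]

/-- two finitely generated models of one field are birational -/
theorem vb_sub (A C : Subalgebra E N) (hA : A.FG) (hC : C.FG) [IsFractionRing A N]
    [IsFractionRing C N] : Scheme.BirationalOver (Spec.map (CommRingCat.ofHom (algebraMap E A)))
      (Spec.map (CommRingCat.ofHom (algebraMap E C))) := by
  obtain ⟨D, hAD, hCD, a, c, ha, hc⟩ := common_loc A C hA hC
  have key : ∀ (B : Subalgebra E N) (h : B ≤ D) (b : B),
      (letI := (Subalgebra.inclusion h).toAlgebra; IsLocalization.Away b D) →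
      Scheme.BirationalOver (Spec.map (CommRingCat.ofHom (algebraMap E D)))
        (Spec.map (CommRingCat.ofHom (algebraMap E B))) := fun B h b hb => by
    let _ := (Subalgebra.inclusion h).toAlgebra
    exact vb_imm _ (algebraMap B D) (Subalgebra.inclusion_injective h)
      (IsOpenImmersion.of_isLocalization b) _ (RingHom.ext fun _ => rfl)
  exact (key A hAD a ha).symm.trans (key C hCD c hc)

/-- a ring with an embedding onto a subalgebra -/
theorem vb_emb {R : Type} [CommRing R] (i : E →+* R) (f : R →+* N) (h : Function.Injective f)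
    (e : f.comp i = algebraMap E N) (A : Subalgebra E N) (hA : ∀ x, x ∈ A ↔ x ∈ f.range) :
    Scheme.BirationalOver (Spec.map (CommRingCat.ofHom (algebraMap E A)))
      (Spec.map (CommRingCat.ofHom i)) := by
  let g : R →+* A := f.codRestrict A.toSubring fun x => (hA _).2 ⟨x, rfl⟩
  have hg : Function.Bijective g := ⟨fun x y hxy => h (congrArg Subtype.val hxy), fun x => by
    obtain ⟨y, hy⟩ := (hA _).1 x.2
    exact ⟨y, Subtype.ext hy⟩⟩
  have : IsIso (CommRingCat.ofHom g) :=
    inferInstanceAs (IsIso (RingEquiv.ofBijective g hg).toCommRingCatIso.hom)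
  exact vb_imm i g hg.1 inferInstance _
    (RingHom.ext fun x => Subtype.ext (congrArg (fun q : E →+* N => q x) e))

theorem vb_frac (S : Set N) (hS : adjoin E S = ⊤) : IsFractionRing (Algebra.adjoin E S) N :=
  IsFractionRing.of_field _ N fun z => by
    obtain ⟨r, hr, t, ht, e⟩ := mem_adjoin_iff_div.1 (hS ▸ mem_top : z ∈ adjoin E S)
    exact ⟨⟨r, hr⟩, ⟨t, ht⟩, e⟩

variable {L : Type} [Field L] [Algebra L E] [Algebra L N] [IsScalarTower L E N]

/-- the multiplication map on the tensor product -/
noncomputable def vbMul (S : Set N) : Algebra.adjoin L S ⊗[L] E →ₐ[Algebra.adjoin L S] N :=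
  Algebra.TensorProduct.lift (Algebra.ofId _ N) (IsScalarTower.toAlgHom L E N)
    fun _ _ => Commute.all _ _

theorem vbMul_inj (S : Set N) (hl : ∀ (n : ℕ) (b : Fin n → E), LinearIndependent L b →
    LinearIndependent (adjoin L S) fun i => algebraMap E N (b i)) :
    Function.Injective (vbMul (E := E) (L := L) S) := by
  let b := Module.Basis.ofVectorSpace L E
  have h1 : LinearIndependent (adjoin L S) fun i => algebraMap E N (b i) := by
    rw [linearIndependent_iff_finset_linearIndependent]
    intro s
    have := hl s.card (fun i => b (s.equivFin.symm i)) (b.linearIndependent.comp _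
      (Subtype.val_injective.comp s.equivFin.symm.injective))
    exact (linearIndependent_equiv s.equivFin.symm).1 this
  have h2 : LinearIndependent (Algebra.adjoin L S) fun i => algebraMap E N (b i) := by
    rw [linearIndependent_iff'] at h1 ⊢
    intro s g hg i hi
    have := h1 s (fun i => ⟨g i, algebra_adjoin_le_adjoin L S (g i).2⟩) hg i hi
    exact Subtype.ext (congrArg (fun q : adjoin L S => (q : N)) this)
  let c := Algebra.TensorProduct.basis (Algebra.adjoin L S) b
  have h3 : (vbMul (E := E) (L := L) S).toLinearMap = c.constr ℕ fun i => algebraMap E N (b i) :=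
    c.ext fun i => by
      rw [Module.Basis.constr_basis]
      simp [c, vbMul]
  have h4 := c.injective_constr_of_linearIndependent (R₂ := ℕ) h2
  rw [← h3] at h4
  exact h4

theorem vbMul_range (S : Set N) (x : N) :
    x ∈ Algebra.adjoin E S ↔ x ∈ (vbMul (E := E) (L := L) S).toRingHom.range := by
  constructor
  · intro hx
    induction hx using Algebra.adjoin_induction with
    | mem y hy => exact ⟨⟨y, Algebra.subset_adjoin hy⟩ ⊗ₜ 1, by simp [vbMul]⟩
    | algebraMap r => exact ⟨1 ⊗ₜ r, by simp [vbMul]⟩
    | add _ _ _ _ h h' => exact add_mem h h'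
    | mul _ _ _ _ h h' => exact mul_mem h h'
  · rintro ⟨y, rfl⟩
    induction y using TensorProduct.induction_on with
    | zero => rw [map_zero]; exact zero_mem _
    | tmul a r =>
      have ha : (a : N) ∈ Algebra.adjoin E S :=
        (Algebra.adjoin_le (S := (Algebra.adjoin E S).restrictScalars L) Algebra.subset_adjoin) a.2
      exact mul_mem ha ((Algebra.adjoin E S).algebraMap_mem r)
    | add _ _ h h' => rw [map_add]; exact add_mem h h'

end

/-- VARB: a field of definition of the function field is a field of definition of the birational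
class. -/
theorem bir_of_field {L E : Type} [Field L] [Field E] [Algebra L E] {Z : Scheme.{0}} [IsIntegral Z]
    (s : Z ⟶ Spec (CommRingCat.of E)) [LocallyOfFiniteType s] [Algebra E Z.functionField]
    [Algebra L Z.functionField] [IsScalarTower L E Z.functionField]
    (hE : Spec.map (CommRingCat.ofHom (algebraMap E Z.functionField)) =
      Z.fromSpecStalk (genericPoint Z) ≫ s)
    (S : Finset Z.functionField) (hS : adjoin E (S : Set Z.functionField) = ⊤)
    (hl : ∀ (n : ℕ) (b : Fin n → E), LinearIndependent L b →
      LinearIndependent (adjoin L (S : Set Z.functionField))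
        fun i => algebraMap E Z.functionField (b i)) :
    BirDefinedOver L E s := by
  let A0 := Algebra.adjoin L (S : Set Z.functionField)
  have : Algebra.FiniteType L A0 := (Subalgebra.fg_iff_finiteType _).1 ⟨S, rfl⟩
  refine ⟨Spec (CommRingCat.of A0), Spec.map (CommRingCat.ofHom (algebraMap L A0)), inferInstance,
    inferInstance, ?_, inferInstance, ?_⟩
  · rw [HasRingHomProperty.Spec_iff (P := @LocallyOfFiniteType)]
    exact RingHom.finiteType_algebraMap.2 this
  obtain ⟨_, ⟨U, hU, rfl⟩, hy, -⟩ := Z.isBasis_affineOpens.exists_subset_of_mem_open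
    (Set.mem_univ (genericPoint Z)) isOpen_univ
  replace hU : IsAffineOpen U := hU
  replace hy : genericPoint Z ∈ U := hy
  have : Nonempty U := ⟨⟨_, hy⟩⟩
  have hF := functionField_isFractionRing_of_isAffineOpen Z U hU
  let c : CommRingCat.of E ⟶ Γ(Z, U) := (Scheme.ΓSpecIso (.of E)).inv ≫ s.appLE ⊤ U le_top
  have hc : hU.fromSpec ≫ s = Spec.map c := by
    rw [Spec.map_comp, ← Scheme.isoSpec_Spec_inv, ← IsAffineOpen.fromSpec_top]
    exact (IsAffineOpen.SpecMap_appLE_fromSpec s _ hU _).symm
  have hft : c.hom.FiniteType :=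
    RingHom.finiteType_respectsIso.2 _ (Scheme.ΓSpecIso (.of E)).symm.commRingCatIsoToRingEquiv
      (s.finiteType_appLE (isAffineOpen_top _) hU le_top)
  have hg : (Z.germToFunctionField U).hom.comp c.hom = algebraMap E Z.functionField := by
    rw [← hU.fromSpecStalk_eq_fromSpecStalk hy, IsAffineOpen.fromSpecStalk, Category.assoc, hc,
      ← Spec.map_comp] at hE
    exact (congrArg CommRingCat.Hom.hom (Spec.map_injective hE)).symm
  let _ := c.hom.toAlgebra
  have : Algebra.FiniteType E Γ(Z, U) := hft
  let g : Γ(Z, U) →ₐ[E] Z.functionField :=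
    ⟨(Z.germToFunctionField U).hom, fun r => congrArg (fun q : E →+* _ => q r) hg⟩
  have hC : g.range.FG := by
    rw [← Algebra.map_top]
    exact Subalgebra.FG.map _ Algebra.FiniteType.out
  have : IsFractionRing g.range Z.functionField := IsFractionRing.of_field _ _ fun z => by
    obtain ⟨a, b, -, e⟩ := IsFractionRing.div_surjective (A := Γ(Z, U)) z
    exact ⟨⟨_, a, rfl⟩, ⟨_, b, rfl⟩, e.symm⟩
  have := vb_frac _ hS
  have h1 := vb_sub (Algebra.adjoin E (S : Set Z.functionField)) g.range ⟨S, rfl⟩ hC
  have h2 := vb_emb c.hom _ (Z.germToFunctionField_injective U) hg g.range fun _ => Iff.rfl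
  have h3 := vb_emb (Algebra.TensorProduct.includeRight (R := L) (A := A0) (B := E)).toRingHom _
    (vbMul_inj _ hl) (RingHom.ext fun r => by simp [vbMul]) _ (vbMul_range _)
  have h4 := Scheme.Hom.birationalOver (pullbackSpecIso L A0 E).inv _ _
    (pullbackSpecIso_inv_snd L A0 E)
  have : IsDominant hU.fromSpec := ⟨by
    rw [DenseRange, hU.range_fromSpec]
    exact U.isOpen.dense ⟨_, hy⟩⟩
  have h5 := Scheme.Hom.birationalOver hU.fromSpec s _ hc
  exact h4.symm.trans (h3.symm.trans (h1.trans (h2.trans h5)))

end Pool.Agent.Lib.MP_5c318e_ag.Sch
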