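import Pool.Agent.Lib.MP_5c318e_ag.Sch.Brg
import Pool.Agent.Lib.MP_5c318e_ag.Sch.Abs
import Pool.Agent.Lib.MP_5c318e_ag.Sch.VarB

/-! The inequality with variation for schemes from its function field form. -/

set_option autoImplicit false

namespace Pool.Agent.Lib.MP_5c318e_ag.Sch

open AlgebraicGeometry CategoryTheory Limits Set IntermediateField

theorem cplus_of_final
    (H : ∀ (Om : Type) [Field Om] [Algebra ℂ Om] [IsAlgClosed Om] (K M : IntermediateField ℂ Om)
      (hKM : K ≤ M), SmoothModel ℂ K → SmoothModel ℂ M → SmoothModel K (extendScalars hKM) →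
      M ⊓ aclC K ≤ K → kod ℂ K ≠ ⊥ →
      kod (aclC K) (adjoin (aclC K) (M : Set Om)) +
        max (kod ℂ K) ((Var (aclC K) (M ⊔ aclC K) : Cardinal) : WithBot Cardinal) ≤ kod ℂ M)
    {X Y : Scheme.{0}} [IsIntegral X] [IsIntegral Y]
    (sX : X ⟶ Spec (CommRingCat.of ℂ)) (sY : Y ⟶ Spec (CommRingCat.of ℂ))
    [Smooth sX] [IsProper sX] [Smooth sY] [IsProper sY] (f : X ⟶ Y) (hf : f ≫ sY = sX)
    [Surjective f] (hc : ∀ y : Y, IsClosed ({y} : Set Y) → _root_.IsConnected (f ⁻¹' {y}))
    (hY : 0 ≤ kodaira sY) :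
    ∃ _ : IsIntegral (pullback f (geomPoint Y)),
      kodaira (pullback.snd f (geomPoint Y)) + max (kodaira sY) (variation f sY) ≤ kodaira sX := by
  let _ := constAlgebra sX
  let _ := constAlgebra sY
  obtain ⟨_, _, _, _, _, _, _, _, h1, h2, h3⟩ := bridge sX sY f hf hc
  let _ := constAlgebra (pullback.snd f (geomPoint Y))
  let _ : Algebra Y.functionField (pullback f (geomPoint Y)).functionField := ‹_›
  have : CharZero Y.functionField :=
    charZero_of_injective_algebraMap (algebraMap ℂ Y.functionField).injective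
  obtain ⟨L, S, h4, h5, h6, h7⟩ := abs_of_final H h1 (cst_const sY).smoothModel
    (cst_const sX).smoothModel h2 h3 fun h => by
      have := hY.trans (kodaira_le sY)
      rw [h] at this
      simp at this
  have h8 : variation f sY ≤ (Algebra.trdeg ℂ L).toENat :=
    iInf₂_le_of_le L h4 (iInf_le _ (bir_of_field _ (cst_const _) S h5 h6))
  have h9 := (OrderHomClass.mono Cardinal.toENat).withBot_map
  refine ⟨‹_›, (add_le_add (kodaira_le _) (max_le ?_ ?_)).trans ((map_add_le h7).trans
    (le_kodaira sX))⟩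
  · exact (kodaira_le sY).trans (h9 (le_max_left _ _))
  · exact (WithBot.coe_le_coe.2 h8).trans (h9 (le_max_right _ ((Algebra.trdeg ℂ L : Cardinal) :
      WithBot Cardinal)))

end Pool.Agent.Lib.MP_5c318e_ag.Sch
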