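import Mathlib

/-! A regular extension stays a field after an algebraic base change. -/

set_option autoImplicit false

namespace Pool.Agent.Lib.MP_5c318e_ag.Sch

open Polynomial IntermediateField

section

variable {K M Om : Type} [Field K] [Field M] [Field Om] [Algebra K M] [Algebra K Om] [Algebra M Om]
  [IsScalarTower K M Om]

theorem reg_deg (h : ∀ a : M, IsAlgebraic K a → a ∈ Set.range (algebraMap K M)) {θ : Om}
    (hθ : IsIntegral K θ) : (minpoly K θ).natDegree ≤ (minpoly M θ).natDegree := by
  have hM : IsIntegral M θ := hθ.tower_top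
  obtain ⟨q, e, hd, hq⟩ := lifts_and_natDegree_eq_and_monic
    ((lifts_iff_coeff_lifts (f := algebraMap K M) (minpoly M θ)).2 fun i => h _
      (isIntegral_coeff_of_dvd _ _ (minpoly.monic hθ) (minpoly.monic hM)
        (minpoly.dvd_map_of_isScalarTower K M θ) i).isAlgebraic) (minpoly.monic hM)
  rw [← hd]
  refine natDegree_le_natDegree (minpoly.min K θ hq ?_)
  rw [← aeval_map_algebraMap M, e, minpoly.aeval]

theorem reg_ld [CharZero K] (h : ∀ a : M, IsAlgebraic K a → a ∈ Set.range (algebraMap K M))
    (A : IntermediateField K Om) [Algebra.IsAlgebraic K A] : A.LinearDisjoint M := by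
  have : Algebra.IsIntegral K A.toSubalgebra := inferInstanceAs (Algebra.IsIntegral K A)
  refine Subalgebra.LinearDisjoint.of_linearDisjoint_finite_left _ _ fun B _ _ => ?_
  let F := Algebra.IsAlgebraic.toIntermediateField B
  have : Module.Finite K F := inferInstanceAs (Module.Finite K B)
  obtain ⟨θ, hθ⟩ := Field.exists_primitive_element K F
  have hi : IsIntegral K θ := .of_finite K θ
  let pb := (adjoin.powerBasis hi).map ((equivOfEq hθ).trans topEquiv)
  refine LinearDisjoint.of_basis_left (A := F) (L := M) pb.basis ?_
  have hd : pb.dim ≤ (minpoly M (θ : Om)).natDegree :=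
    (congrArg natDegree (minpoly.algHom_eq F.val F.val.injective θ)).ge.trans
      (reg_deg h (hi.map F.val))
  convert (linearIndependent_pow (K := M) (θ : Om)).comp (Fin.castLE hd) (Fin.castLE_injective hd)
    using 1
  funext i
  rw [Function.comp_apply, pb.basis_eq_pow, map_pow]
  rfl

end

/-- REG (file Sch/Reg): a regular extension stays a field after an algebraic base change. -/
theorem isField_tensor {K M L : Type} [Field K] [CharZero K] [Field M] [Field L] [Algebra K M]
    [Algebra K L] [Algebra.IsAlgebraic K L]
    (h : ∀ a : M, IsAlgebraic K a → a ∈ Set.range (algebraMap K M)) :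
    IsField (TensorProduct K M L) := by
  let j : L →ₐ[K] AlgebraicClosure M := IsAlgClosed.lift
  have : Algebra.IsAlgebraic K j.fieldRange := (AlgEquiv.ofInjectiveField j).isAlgebraic
  exact LinearDisjoint.isField_of_isAlgebraic' (fa := IsScalarTower.toAlgHom K M _) (fb := j)
    (linearDisjoint_iff'.2 (Subalgebra.LinearDisjoint.symm (reg_ld h j.fieldRange))) (.inr ‹_›)

end Pool.Agent.Lib.MP_5c318e_ag.Sch
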