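import Pool.Agent.Lib.MP_5c318e_ag.Sch.Loc
import Pool.Agent.Lib.MP_5c318e_ag.Sch.Reg

/-! The function field extension of a dominant morphism; the geometric generic fibre. -/

set_option autoImplicit false

namespace Pool.Agent.Lib.MP_5c318e_ag.Sch

open AlgebraicGeometry CategoryTheory Limits Set TensorProduct

noncomputable section

variable {X Y : Scheme.{0}} [IsIntegral X] [IsIntegral Y]

theorem exists_fld (f : X ⟶ Y) [IsDominant f] : ∃ φ : Y.functionField ⟶ X.functionField,
    Spec.map φ ≫ Y.fromSpecStalk _ = X.fromSpecStalk _ ≫ f ∧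
    ∀ (U : Y.Opens) [Nonempty U] [Nonempty (f ⁻¹ᵁ U)] (s : Γ(Y, U)),
      φ (Y.germToFunctionField U s) = X.germToFunctionField (f ⁻¹ᵁ U) (f.app U s) := by
  have h : f (genericPoint X) ⤳ genericPoint Y :=
    ((genericPoint_spec X).image f.continuous).specializes (by
      rw [image_univ]
      exact f.denseRange _)
  refine ⟨Y.presheaf.stalkSpecializes h ≫ f.stalkMap _, by simp, fun U _ _ s => ?_⟩
  rw [← ConcreteCategory.comp_apply, ← ConcreteCategory.comp_apply,
    TopCat.Presheaf.germ_stalkSpecializes_assoc, Scheme.Hom.germ_stalkMap]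

theorem flat_fromSpecStalk (Z : Scheme.{0}) (x : Z) : Flat (Z.fromSpecStalk x) := by
  obtain ⟨_, ⟨U, hU : IsAffineOpen U, rfl⟩, hx, -⟩ :=
    Z.isBasis_affineOpens.exists_subset_of_mem_open (mem_univ x) isOpen_univ
  let _ := Z.presheaf.algebra_section_stalk ⟨x, hx⟩
  have := hU.isLocalization_stalk ⟨x, hx⟩
  have : Flat (Spec.map (Z.presheaf.germ U x hx)) := Flat.SpecMap_iff.2
    (IsLocalization.flat (Z.presheaf.stalk x) (hU.primeIdealOf ⟨x, hx⟩).asIdeal.primeCompl)
  rw [← hU.fromSpecStalk_eq_fromSpecStalk hx]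
  exact MorphismProperty.comp_mem @Flat _ _ this (inferInstanceAs (Flat hU.fromSpec))

variable {f : X ⟶ Y} [Algebra Y.functionField X.functionField]

theorem Cst.tower {k : Type} [Field k] {sX : X ⟶ Spec (CommRingCat.of k)}
    {sY : Y ⟶ Spec (CommRingCat.of k)} [Algebra k X.functionField] [Algebra k Y.functionField]
    (hX : Cst sX) (hY : Cst sY) (hf : f ≫ sY = sX)
    (h : Spec.map (CommRingCat.ofHom (algebraMap Y.functionField X.functionField)) ≫
      Y.fromSpecStalk _ = X.fromSpecStalk _ ≫ f) :
    IsScalarTower k Y.functionField X.functionField := by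
  have : CommRingCat.ofHom (algebraMap k X.functionField) =
      CommRingCat.ofHom (algebraMap k Y.functionField) ≫
        CommRingCat.ofHom (algebraMap Y.functionField X.functionField) := by
    apply Spec.map_injective
    rw [Spec.map_comp, hX, hY, ← hf, ← Category.assoc, ← Category.assoc, h]
  exact .of_algebraMap_eq' (congrArg CommRingCat.Hom.hom this)

theorem Cst.generic {k : Type} [Field k] [CharZero k] {sX : X ⟶ Spec (CommRingCat.of k)}
    [Algebra k X.functionField] [Algebra k Y.functionField] [IsProper sX] [Smooth sX]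
    [IsScalarTower k Y.functionField X.functionField] (hX : Cst sX)
    (hfg : (⊤ : IntermediateField k Y.functionField).FG)
    (h : ∀ (U : Y.Opens) [Nonempty U] [Nonempty (f ⁻¹ᵁ U)] (s : Γ(Y, U)),
      algebraMap Y.functionField X.functionField (Y.germToFunctionField U s) =
        X.germToFunctionField (f ⁻¹ᵁ U) (f.app U s)) :
    SmoothModel Y.functionField X.functionField := by
  have : Algebra.EssFiniteType k Y.functionField := IntermediateField.fg_top_iff.1 hfg
  obtain ⟨N, A, h1, h2, h3⟩ := hX.cover (fun U => ∃ W, IsAffineOpen W ∧ U ≤ f ⁻¹ᵁ W) fun x => by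
    obtain ⟨_, ⟨W, hW, rfl⟩, hy, -⟩ := Y.isBasis_affineOpens.exists_subset_of_mem_open
      (mem_univ (f x)) isOpen_univ
    obtain ⟨_, ⟨U, hU, rfl⟩, hx, hUW⟩ := X.isBasis_affineOpens.exists_subset_of_mem_open
      hy (f ⁻¹ᵁ W).2
    exact ⟨U, hU, hx, W, hW, hUW⟩
  refine SmoothModel.generic A h1 (fun i c => ?_) fun O hO => h3 O fun c => by
    rw [IsScalarTower.algebraMap_apply k Y.functionField]
    exact hO _
  obtain ⟨U, ⟨x⟩, ⟨W, hW, hUW⟩, h4⟩ := h2 i
  have : Nonempty W := ⟨⟨_, hUW x.2⟩⟩
  have : Nonempty (f ⁻¹ᵁ W) := ⟨⟨_, hUW x.2⟩⟩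
  have := functionField_isFractionRing_of_isAffineOpen Y W hW
  have h5 : ∀ t : Γ(Y, W), algebraMap Y.functionField X.functionField
      (algebraMap _ Y.functionField t) ∈ A i := fun t =>
    ((X.presheaf.germ_res_apply (homOfLE hUW) _ _ _).trans (h W t).symm) ▸ h4 _
  obtain ⟨a, b, hb, rfl⟩ := IsFractionRing.div_surjective (A := Γ(Y, W)) c
  have hb' := IsFractionRing.to_map_ne_zero_of_mem_nonZeroDivisors (K := Y.functionField) hb
  exact ⟨_, hb', h5 b, by rw [div_mul_cancel₀ _ hb']; exact h5 a⟩

/-- the generic fibre over an algebraic extension of the function field of the base -/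
theorem ggf [CharZero Y.functionField]
    (h : Spec.map (CommRingCat.ofHom (algebraMap Y.functionField X.functionField)) ≫
      Y.fromSpecStalk _ = X.fromSpecStalk _ ≫ f)
    (hc : ∀ a : X.functionField, IsAlgebraic Y.functionField a →
      a ∈ range (algebraMap Y.functionField X.functionField))
    (E : Type) [Field E] [Algebra Y.functionField E] [Algebra.IsAlgebraic Y.functionField E]
    (g : Spec (CommRingCat.of E) ⟶ Y)
    (hg : g = Spec.map (CommRingCat.ofHom (algebraMap Y.functionField E)) ≫ Y.fromSpecStalk _) :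
    ∃ (_ : IsIntegral (pullback f g)) (φ : X.functionField →+* (pullback f g).functionField),
      letI := constAlgebra (pullback.snd f g)
      φ.comp (algebraMap Y.functionField _) = (algebraMap E _).comp (algebraMap Y.functionField E) ∧
      ∀ S : Subring (pullback f g).functionField, (∀ a, φ a ∈ S) → (∀ c, algebraMap E _ c ∈ S) →
        S = ⊤ := by
  let T := X.functionField ⊗[Y.functionField] E
  let _ : Field T := (isField_tensor hc).toField
  have p1 := isPullback_SpecMap_of_isPushout _ _ _ _
    (CommRingCat.isPushout_tensorProduct Y.functionField X.functionField E)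
  set a := Spec.map (CommRingCat.ofHom (S := T) Algebra.TensorProduct.includeLeftRingHom)
  set b := Spec.map (CommRingCat.ofHom (S := T) Algebra.TensorProduct.includeRight.toRingHom)
  have w : (a ≫ X.fromSpecStalk _) ≫ f = b ≫ g := by
    rw [Category.assoc, ← h, hg, ← Category.assoc, p1.w, Category.assoc]
  have p2 : IsPullback a b (X.fromSpecStalk _ ≫ f) g := by
    rw [← h, hg]
    exact IsPullback.of_isLimit (PullbackCone.isLimitOfCompMono _ _ _ _ p1.isLimit)
  let l := pullback.lift _ _ w
  have p3 : IsPullback l a (pullback.fst f g) (X.fromSpecStalk _) :=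
    IsPullback.of_right (by rw [pullback.lift_snd]; exact p2.flip) (pullback.lift_fst _ _ _)
      (IsPullback.of_hasPullback f g).flip
  have := flat_fromSpecStalk Y (genericPoint Y)
  have : Flat g := by rw [hg]; infer_instance
  have hd : ∀ {Z W : Scheme.{0}} [IrreducibleSpace W] (u : Z ⟶ W), genericPoint W ∈ range u →
      IsDominant u := fun u hu => ⟨(dense_iff_closure_eq.2 (genericPoint_spec _)).mono
        (singleton_subset_iff.2 hu)⟩
  have := hd (X.fromSpecStalk (genericPoint X)) ⟨_, X.fromSpecStalk_closedPoint⟩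
  have := IsSchemeTheoreticallyDominant.of_isDominant (X.fromSpecStalk (genericPoint X))
  have := IsSchemeTheoreticallyDominant.of_isPullback p3.flip
  have : QuasiCompact l := inferInstance
  have := IsSchemeTheoreticallyDominant.isReduced l
  have hp : IsGenericPoint (l (IsLocalRing.closedPoint T)) univ := by
    refine dense_iff_closure_eq.1 (l.denseRange.mono ?_)
    rintro _ ⟨t, rfl⟩
    exact congrArg l (Subsingleton.elim _ _)
  have : IrreducibleSpace (pullback f g :) := (irreducibleSpace_def _).2 hp.isIrreducible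
  have := isIntegral_of_irreducibleSpace_of_isReduced (pullback f g)
  have : IsDominant (l ≫ pullback.fst f g) := by
    rw [p3.w]
    infer_instance
  have := IsDominant.of_comp l (pullback.fst f g)
  obtain ⟨φ, h1, -⟩ := exists_fld (pullback.fst f g)
  let _ := constAlgebra (pullback.snd f g)
  have h2 := cst_const (pullback.snd f g)
  let ψ := (pullback f g).presheaf.stalkSpecializes (hp.specializes
    (mem_univ (genericPoint _))) ≫ Scheme.stalkClosedPointTo l
  have h3 : Spec.map ψ ≫ (pullback f g).fromSpecStalk _ = l := by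
    rw [Spec.map_comp, Category.assoc, Scheme.SpecMap_stalkSpecializes_fromSpecStalk,
      Scheme.Spec_stalkClosedPointTo_fromSpecStalk]
  have h4 : φ ≫ ψ = CommRingCat.ofHom (S := T) Algebra.TensorProduct.includeLeftRingHom := by
    apply Spec.map_injective
    rw [← cancel_mono (X.fromSpecStalk _), Spec.map_comp, Category.assoc, h1, ← Category.assoc, h3]
    exact p3.w
  have h5 : CommRingCat.ofHom (algebraMap E (pullback f g).functionField) ≫ ψ =
      CommRingCat.ofHom (S := T) Algebra.TensorProduct.includeRight.toRingHom := by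
    apply Spec.map_injective
    rw [Spec.map_comp, h2, ← Category.assoc, h3]
    exact pullback.lift_snd _ _ _
  have h6 : ∀ x, ψ.hom (φ.hom x) = x ⊗ₜ 1 := DFunLike.congr_fun (congrArg CommRingCat.Hom.hom h4)
  have h7 : ∀ c, ψ.hom (algebraMap E _ c) = 1 ⊗ₜ c :=
    DFunLike.congr_fun (congrArg CommRingCat.Hom.hom h5)
  have hi : Function.Injective ψ.hom := ψ.hom.injective
  refine ⟨‹_›, φ.hom, RingHom.ext fun c => hi ?_, fun S h8 h9 => top_le_iff.1 fun n _ => ?_⟩
  · rw [RingHom.comp_apply, RingHom.comp_apply, h6, h7, Algebra.algebraMap_eq_smul_one,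
      Algebra.algebraMap_eq_smul_one, smul_tmul]
  · have : ∀ t : T, t ∈ S.map ψ.hom := fun t => by
      induction t using TensorProduct.induction_on with
      | zero => exact zero_mem _
      | add _ _ h1 h2 => exact add_mem h1 h2
      | tmul x c => exact ⟨_, mul_mem (h8 x) (h9 c), by
          rw [map_mul, h6, h7]
          exact (Algebra.TensorProduct.tmul_mul_tmul _ _ _ _).trans (by rw [mul_one, one_mul])⟩
    obtain ⟨m, hm, e⟩ := this (ψ.hom n)
    exact hi e ▸ hm

end

end Pool.Agent.Lib.MP_5c318e_ag.Sch
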