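import Mathlib

/-!
Kodaira dimension, geometric generic fibre and variation for schemes.
-/

namespace Pool.Agent.Lib.MP_5c318e_ag.Sch

open AlgebraicGeometry CategoryTheory Limits TensorProduct

noncomputable section

section Forms

variable (k F : Type) [Field k] [Field F] [Algebra k F]
  {V : Type} [AddCommGroup V] [Module F V] {Z : Type}

/-- Let `Z` be a variety with function field `F` and local rings `O x`, and let a line bundle on
`Z` be given by its space `V` of rational sections and generators `G x` of its stalks. The global
sections of its `m`-th tensor power are the rational sections that lie, for every point `x`, in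
the `O x`-module generated by the tensor products of `m` elements of `G x`. -/
def sections (O : Z → Subring F) (G : Z → Set V) (m : ℕ) : Set (⨂[F]^m V) :=
  {w | ∀ x : Z, w ∈ AddSubgroup.closure
    {t | ∃ a ∈ O x, ∃ v : Fin m → V, (∀ i, v i ∈ G x) ∧ t = a • PiTensorProduct.tprod F v}}

/-- The Iitaka dimension of the line bundle: the largest transcendence degree of a field generated
by the ratios `w' / w` of sections of an `m`-th tensor power, `m > 0`, i.e. the largest dimension
of the image of the rational map given by these sections; `⊥` if there is no nonzero section. -/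
def iitakaDim (O : Z → Subring F) (G : Z → Set V) : WithBot ℕ∞ :=
  ⨆ (m : ℕ) (_ : 0 < m) (w : ⨂[F]^m V) (_ : w ∈ sections F O G m) (_ : w ≠ 0),
    ((Algebra.trdeg k (IntermediateField.adjoin k {h : F | h • w ∈ sections F O G m})).toENat : ℕ∞)

/-- The products `v_1 ∧ ... ∧ v_n` with all `v_j` in `S`. -/
def wedges (n : ℕ) (S : Set V) : Set (⋀[F]^n V) :=
  {w | ∃ v : Fin n → V, (∀ j, v j ∈ S) ∧ w = exteriorPower.ιMulti F n v}

/-- The Iitaka dimension of the `n`-th exterior power of the sheaf whose stalks are generated
by the sets `S x`. -/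
def detDim (n : ℕ) (O : Z → Subring F) (S : Z → Set V) : WithBot ℕ∞ :=
  iitakaDim k F O fun x => wedges F n (S x)

/-- The Iitaka dimension of the canonical bundle, whose stalk at `x` is generated by the forms
`dg_1 ∧ ... ∧ dg_n` with `g_j` in `O x`; the dimension `n` of the variety is the transcendence
degree of `F / k`. -/
def kodairaOf (O : Z → Subring F) : WithBot ℕ∞ :=
  detDim k F (Algebra.trdeg k F).toNat O fun x => KaehlerDifferential.D k F '' O x

end Forms

/-- `s : Z ⟶ Spec E` is birational over `E` to the base change of a variety `W` over `L`. -/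
def BirDefinedOver (L E : Type) [Field L] [Field E] [Algebra L E] {Z : Scheme.{0}}
    (s : Z ⟶ Spec (CommRingCat.of E)) : Prop :=
  ∃ (W : Scheme.{0}) (sW : W ⟶ Spec (CommRingCat.of L)),
    IsIntegral W ∧ IsSeparated sW ∧ LocallyOfFiniteType sW ∧ QuasiCompact sW ∧
    Scheme.BirationalOver (pullback.snd sW (Spec.map (CommRingCat.ofHom (algebraMap L E)))) s

/-- The least transcendence degree over `ℂ` of an algebraically closed subfield `L` of `E` over
which `s : Z ⟶ Spec E` is birationally defined. -/
def variationOf (E : Type) [Field E] [Algebra ℂ E] {Z : Scheme.{0}}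
    (s : Z ⟶ Spec (CommRingCat.of E)) : ℕ∞ :=
  ⨅ (L : IntermediateField ℂ E) (_ : IsAlgClosed L) (_ : BirDefinedOver L E s),
    (Algebra.trdeg ℂ L).toENat

/-- The function field of an integral scheme over `k` as a `k`-algebra,
`k → Γ(Z, O_Z) → k(Z)`. -/
@[reducible] def constAlgebra {k : Type} [Field k] {Z : Scheme.{0}} [IsIntegral Z]
    (s : Z ⟶ Spec (CommRingCat.of k)) : Algebra k Z.functionField :=
  RingHom.toAlgebra ((Scheme.ΓSpecIso (CommRingCat.of k)).inv ≫ s.appTop ≫
    Z.presheaf.germ ⊤ (genericPoint Z) trivial).hom

/-- The Kodaira dimension of an integral scheme over `k`. -/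
def kodaira {k : Type} [Field k] {Z : Scheme.{0}} [IsIntegral Z]
    (s : Z ⟶ Spec (CommRingCat.of k)) : WithBot ℕ∞ :=
  letI := constAlgebra s
  kodairaOf k Z.functionField fun x : Z => (algebraMap (Z.presheaf.stalk x) Z.functionField).range

/-- The geometric generic point of `Y`. -/
def geomPoint (Y : Scheme.{0}) [IsIntegral Y] :
    Spec (CommRingCat.of (AlgebraicClosure Y.functionField)) ⟶ Y :=
  Spec.map (CommRingCat.ofHom (algebraMap Y.functionField (AlgebraicClosure Y.functionField))) ≫
    Y.fromSpecStalk (genericPoint Y)

/-- The variation of `f : X ⟶ Y`. -/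
def variation {X Y : Scheme.{0}} [IsIntegral Y] (f : X ⟶ Y) (sY : Y ⟶ Spec (CommRingCat.of ℂ)) :
    ℕ∞ :=
  letI := constAlgebra sY
  variationOf (AlgebraicClosure Y.functionField) (pullback.snd f (geomPoint Y))

end

end Pool.Agent.Lib.MP_5c318e_ag.Sch
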