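import Pool.Agent.Lib.MP_5c318e_ag.Sch.Main
import Pool.Agent.Lib.MP_5c318e_ag.Sch.Fib

/-! The inequality with variation for the general closed fibre. -/

set_option autoImplicit false

namespace Pool.Agent.Lib.MP_5c318e_ag.Sch

open AlgebraicGeometry CategoryTheory Limits Set IntermediateField

theorem cplus_closed
    (H : ∀ (Om : Type) [Field Om] [Algebra ℂ Om] [IsAlgClosed Om] (K M : IntermediateField ℂ Om)
      (hKM : K ≤ M), SmoothModel ℂ K → SmoothModel ℂ M → SmoothModel K (extendScalars hKM) →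
      M ⊓ aclC K ≤ K → kod ℂ K ≠ ⊥ →
      kod (aclC K) (adjoin (aclC K) (M : Set Om)) +
        max (kod ℂ K) ((Var (aclC K) (M ⊔ aclC K) : Cardinal) : WithBot Cardinal) ≤ kod ℂ M)
    (H' : FibLe) {X Y : Scheme.{0}} [IsIntegral X] [IsIntegral Y]
    (sX : X ⟶ Spec (CommRingCat.of ℂ)) (sY : Y ⟶ Spec (CommRingCat.of ℂ))
    [Smooth sX] [IsProper sX] [Smooth sY] [IsProper sY] (f : X ⟶ Y) (hf : f ≫ sY = sX)
    [Surjective f] (hc : ∀ y : Y, IsClosed ({y} : Set Y) → _root_.IsConnected (f ⁻¹' {y}))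
    (hY : 0 ≤ kodaira sY) :
    ∃ V : Y.Opens, (V : Set Y).Nonempty ∧ ∀ y : Spec (CommRingCat.of ℂ) ⟶ Y, y ≫ sY = 𝟙 _ →
      (∀ p, y p ∈ V) → ∃ _ : IsIntegral (pullback f y), Smooth (pullback.snd f y) ∧
        kodaira (pullback.snd f y) + max (kodaira sY) (variation f sY) ≤ kodaira sX := by
  obtain ⟨V, hV, h⟩ := closed_fibre H' sX sY f hf hc
  obtain ⟨_, h1⟩ := cplus_of_final H sX sY f hf hc hY
  refine ⟨V, hV, fun y h2 h3 => ?_⟩
  obtain ⟨_, h4, h5⟩ := h y h2 h3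
  exact ⟨‹_›, h4, (add_le_add_left (h5 ‹_›) _).trans h1⟩

end Pool.Agent.Lib.MP_5c318e_ag.Sch
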